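import Mathlib

/-!
# Novikov-Boone, part 1: good subgroups of HNN extensions

Britton's lemma of Mathlib gives: if a subgroup `H` of the base group satisfies
`a ∈ H ↔ φ a ∈ H` for `a` in the associated subgroup, then the subgroup generated by
`H` and the stable letter meets the base group exactly in `H`.  Iterated over a finite
list of partial isomorphisms.
-/

namespace NB

open HNNExtension HNNExtension.NormalWord

variable {G : Type*} [Group G] {A B : Subgroup G} (φ : A ≃* B)

/-- The set of elements having a reduced word with all letters in `H`. -/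
def HWord (H : Subgroup G) (z : HNNExtension G A B φ) : Prop :=
  ∃ w : ReducedWord G A B, w.prod φ = z ∧ w.head ∈ H ∧ ∀ x ∈ w.toList, x.2 ∈ H

theorem HWord.one (H : Subgroup G) : HWord φ H 1 :=
  ⟨ReducedWord.empty G A B, by simp [ReducedWord.prod, ReducedWord.empty],
    by simp [ReducedWord.empty], by simp [ReducedWord.empty]⟩

theorem HWord.of_mul {H : Subgroup G} {z : HNNExtension G A B φ} (hz : HWord φ H z)
    {h : G} (hh : h ∈ H) : HWord φ H (of h * z) := by
  obtain ⟨w, hw, hhead, hlist⟩ := hz
  refine ⟨⟨h * w.head, w.toList, w.chain⟩, ?_, H.mul_mem hh hhead, hlist⟩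
  rw [← hw]
  simp [ReducedWord.prod, mul_assoc]

theorem mem_toSubgroupEquiv {H : Subgroup G}
    (hH : ∀ a : A, (a : G) ∈ H ↔ (φ a : G) ∈ H) (u : ℤˣ) (a : toSubgroup A B u)
    (ha : (a : G) ∈ H) : (toSubgroupEquiv φ u a : G) ∈ H := by
  rcases Int.units_eq_one_or u with rfl | rfl
  · exact (hH a).1 ha
  · have h := (hH (φ.symm a))
    have h2 : φ (φ.symm a) = a := MulEquiv.apply_symm_apply φ a
    rw [h2] at h
    exact h.2 ha

theorem t_zpow_mul (u : ℤˣ) (a : toSubgroup A B u) :
    (t ^ (u : ℤ) * of (a : G) : HNNExtension G A B φ)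
      = of (toSubgroupEquiv φ u a : G) * t ^ (u : ℤ) := by
  rcases Int.units_eq_one_or u with rfl | rfl
  · rw [Units.val_one, zpow_one]
    exact t_mul_of (φ := φ) a
  · rw [Units.val_neg, Units.val_one, zpow_neg, zpow_one]
    exact inv_t_mul_of (φ := φ) a

theorem HWord.t_mul {H : Subgroup G} (hH : ∀ a : A, (a : G) ∈ H ↔ (φ a : G) ∈ H)
    {z : HNNExtension G A B φ} (hz : HWord φ H z) (u : ℤˣ) :
    HWord φ H (t ^ (u : ℤ) * z) := by
  obtain ⟨w, hw, hhead, hlist⟩ := hz
  rcases w with ⟨g, l, hc⟩
  simp only [ReducedWord.prod] at hw hhead hlist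
  rcases l with _ | ⟨a, l⟩
  · -- no stable letter
    refine ⟨⟨1, [(u, g)], List.isChain_singleton _⟩, ?_, H.one_mem, ?_⟩
    · rw [← hw]
      simp [ReducedWord.prod]
    · simpa using hhead
  · by_cases hcan : g ∈ toSubgroup A B u ∧ u ≠ a.1
    · -- cancellation
      obtain ⟨hg, hne⟩ := hcan
      have hneg : a.1 = -u := by
        rcases Int.units_eq_one_or u with rfl | rfl <;>
        rcases Int.units_eq_one_or a.1 with h | h <;> simp_all
      refine ⟨⟨(toSubgroupEquiv φ u ⟨g, hg⟩ : G) * a.2, l, (List.isChain_cons.1 hc).2⟩, ?_,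
        H.mul_mem (mem_toSubgroupEquiv φ hH u ⟨g, hg⟩ hhead) (hlist a (by simp)), ?_⟩
      · rw [← hw]
        have h1 := t_zpow_mul φ u ⟨g, hg⟩
        simp only [ReducedWord.prod, List.map_cons, List.prod_cons, map_mul]
        rw [← mul_assoc, h1, hneg]
        simp [mul_assoc]
      · intro x hx
        exact hlist x (List.mem_cons_of_mem _ hx)
    · -- no cancellation
      refine ⟨⟨1, (u, g) :: a :: l, ?_⟩, ?_, H.one_mem, ?_⟩
      · refine List.isChain_cons_cons.2 ⟨?_, hc⟩
        intro hg
        by_contra hne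
        exact hcan ⟨hg, hne⟩
      · rw [← hw]
        simp [ReducedWord.prod, mul_assoc]
      · intro x hx
        rcases List.mem_cons.1 hx with rfl | hx
        · exact hhead
        · exact hlist x hx

/-- If `a ∈ H ↔ φ a ∈ H` on the associated subgroup, the subgroup generated by `H` and the
stable letter meets the base group in `H`. -/
theorem hnn_good (H : Subgroup G) (hH : ∀ a : A, (a : G) ∈ H ↔ (φ a : G) ∈ H) (g : G)
    (hg : (of g : HNNExtension G A B φ) ∈
      Subgroup.closure ((of '' (H : Set G)) ∪ {(t : HNNExtension G A B φ)})) : g ∈ H := by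
  have key : ∀ z ∈ Subgroup.closure ((of '' (H : Set G)) ∪ {(t : HNNExtension G A B φ)}),
      HWord φ H z := by
    intro z hz
    induction hz using Subgroup.closure_induction_left with
    | one => exact HWord.one φ H
    | mul_left x hx y _ hy =>
      rcases hx with ⟨h, hh, rfl⟩ | rfl
      · exact HWord.of_mul φ hy hh
      · simpa using HWord.t_mul φ hH hy 1
    | inv_mul_cancel x hx y _ hy =>
      rcases hx with ⟨h, hh, rfl⟩ | rfl
      · rw [← map_inv]
        exact HWord.of_mul φ hy (H.inv_mem hh)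
      · simpa using HWord.t_mul φ hH hy (-1)
  obtain ⟨w, hw, hhead, -⟩ := key _ hg
  have hnil := ReducedWord.toList_eq_nil_of_mem_of_range φ w ⟨g, hw.symm⟩
  rw [ReducedWord.prod, hnil] at hw
  simp only [List.map_nil, List.prod_nil, mul_one] at hw
  rw [← of_injective φ hw]
  exact hhead

end NB
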