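import Mathlib
import Pool.Agent.NB.Good

/-!
# Novikov-Boone, part 2: finite towers of HNN extensions
-/

namespace NB

open Function

/-- Given finitely many pairs of injective homomorphisms `f i, g i : L i → G` there is an
overgroup `G'` of `G` with elements `p i` such that `p i * f i x = g i x * p i`; moreover, if
`H` is a subgroup of `G` with `f i x ∈ H ↔ g i x ∈ H`, then the subgroup of `G'` generated by
`H` and all the `p i` meets `G` exactly in `H`. -/
theorem tower : ∀ (n : ℕ) (G : Type) [Group G] (L : Fin n → Type) [∀ i, Group (L i)]
    (f g : ∀ i, L i →* G) (_ : ∀ i, Injective (f i)) (_ : ∀ i, Injective (g i))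
    (H : Subgroup G) (_ : ∀ i x, f i x ∈ H ↔ g i x ∈ H),
    ∃ (G' : Type) (_ : Group G') (ι : G →* G') (p : Fin n → G'), Injective ι ∧
      (∀ i x, p i * ι (f i x) = ι (g i x) * p i) ∧
      ∀ z, ι z ∈ Subgroup.closure ((ι '' (H : Set G)) ∪ Set.range p) → z ∈ H := by
  intro n
  induction n with
  | zero =>
    intro G _ L _ f g _ _ H _
    refine ⟨G, inferInstance, MonoidHom.id G, Fin.elim0, fun _ _ h => h, fun i => i.elim0, ?_⟩
    intro z hz
    have h0 : Set.range (Fin.elim0 : Fin 0 → G) = ∅ := by
      ext x
      constructor
      · rintro ⟨i, _⟩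
        exact i.elim0
      · intro h
        exact absurd h (Set.notMem_empty x)
    have h1 : (MonoidHom.id G '' (H : Set G)) = (H : Set G) := by
      ext x
      simp
    rw [h0, h1, Set.union_empty, Subgroup.closure_eq] at hz
    exact hz
  | succ n ih =>
    intro G _ L _ f g hf hg H hH
    obtain ⟨G', inst, ι, p, hι, hp, hz⟩ := ih G (fun i => L i.castSucc)
      (fun i => f i.castSucc) (fun i => g i.castSucc) (fun i => hf i.castSucc)
      (fun i => hg i.castSucc) H (fun i => hH i.castSucc)
    -- the last pair
    let a : L (Fin.last n) →* G' := ι.comp (f (Fin.last n))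
    let b : L (Fin.last n) →* G' := ι.comp (g (Fin.last n))
    have ha : Injective a := hι.comp (hf (Fin.last n))
    have hb : Injective b := hι.comp (hg (Fin.last n))
    let φ : a.range ≃* b.range :=
      (MonoidHom.ofInjective ha).symm.trans (MonoidHom.ofInjective hb)
    have hφ : ∀ x, φ (MonoidHom.ofInjective ha x) = MonoidHom.ofInjective hb x := by
      intro x
      simp [φ]
    let H' : Subgroup G' := Subgroup.closure ((ι '' (H : Set G)) ∪ Set.range p)
    have hH' : ∀ c : a.range, (c : G') ∈ H' ↔ (φ c : G') ∈ H' := by
      intro c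
      obtain ⟨x, rfl⟩ := (MonoidHom.ofInjective ha).surjective c
      rw [hφ]
      have e1 : ((MonoidHom.ofInjective ha x : a.range) : G') = ι (f (Fin.last n) x) := rfl
      have e2 : ((MonoidHom.ofInjective hb x : b.range) : G') = ι (g (Fin.last n) x) := rfl
      rw [e1, e2]
      constructor
      · intro h
        exact Subgroup.subset_closure (Or.inl ⟨_, (hH _ _).1 (hz _ h), rfl⟩)
      · intro h
        exact Subgroup.subset_closure (Or.inl ⟨_, (hH _ _).2 (hz _ h), rfl⟩)
    refine ⟨HNNExtension G' a.range b.range φ, inferInstance, HNNExtension.of.comp ι,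
      Fin.lastCases HNNExtension.t (fun i => HNNExtension.of (p i)),
      (HNNExtension.of_injective φ).comp hι, ?_, ?_⟩
    · intro i x
      induction i using Fin.lastCases with
      | last =>
        beta_reduce
        rw [Fin.lastCases_last]
        have h := HNNExtension.t_mul_of (φ := φ) (MonoidHom.ofInjective ha x)
        rw [hφ] at h
        exact h
      | cast i =>
        beta_reduce
        rw [Fin.lastCases_castSucc]
        change HNNExtension.of (p i) * HNNExtension.of (ι (f i.castSucc x)) =
          HNNExtension.of (ι (g i.castSucc x)) * HNNExtension.of (p i)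
        rw [← map_mul, ← map_mul]
        exact congrArg _ (hp i x)
    · intro z hz'
      apply hz
      refine hnn_good φ H' hH' (ι z) ?_
      refine (Subgroup.closure_le _).2 ?_ hz'
      rintro y (⟨h, hh, rfl⟩ | ⟨i, rfl⟩)
      · exact Subgroup.subset_closure
          (Or.inl ⟨ι h, Subgroup.subset_closure (Or.inl ⟨h, hh, rfl⟩), rfl⟩)
      · induction i using Fin.lastCases with
        | last =>
          beta_reduce
          rw [Fin.lastCases_last]
          exact Subgroup.subset_closure (Or.inr rfl)
        | cast i =>
          beta_reduce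
          rw [Fin.lastCases_castSucc]
          exact Subgroup.subset_closure
            (Or.inl ⟨p i, Subgroup.subset_closure (Or.inr ⟨i, rfl⟩), rfl⟩)

end NB
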