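import Mathlib
import Pool.Agent.NB.Tower

/-!
# Novikov-Boone, part 6: conjugating one word onto all generators

For a finite presentation `⟨γ | R⟩` and a word `w` we add for each generator `z` a letter
`g_z` and the relation `g_z w g_z⁻¹ = z`.  If `w = 1` the group becomes free on the letters
`g_z`; if `w` and all generators have infinite order, the old group embeds.
-/

namespace NB

open Function

/-- the relator set of a list of words -/
def relSet {γ : Type} (R : List (List (γ × Bool))) : Set (FreeGroup γ) :=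
  FreeGroup.mk '' {L | L ∈ R}

/-- the group presented by a list of words -/
abbrev Pr {γ : Type} (R : List (List (γ × Bool))) := PresentedGroup (relSet R)

/-- a word in the old generators -/
def oldWord {γ : Type} (L : List (γ × Bool)) : List ((γ ⊕ γ) × Bool) :=
  L.map (fun x => (Sum.inl x.1, x.2))

/-- the relators of the new presentation -/
def famRels {γ : Type} (gens : List γ) (R : List (List (γ × Bool))) (w : List (γ × Bool)) :
    List (List ((γ ⊕ γ) × Bool)) :=
  R.map oldWord ++ gens.map (fun z =>
    [(Sum.inr z, true)] ++ (oldWord w ++ ([(Sum.inr z, false)] ++ [(Sum.inl z, false)])))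

section

variable {γ : Type} {W : Type*} [Group W]

theorem lift_oldWord (f : γ ⊕ γ → W) (L : List (γ × Bool)) :
    FreeGroup.lift f (FreeGroup.mk (oldWord L)) =
      FreeGroup.lift (f ∘ Sum.inl) (FreeGroup.mk L) := by
  have h : FreeGroup.mk (oldWord L) = FreeGroup.map Sum.inl (FreeGroup.mk L) := by
    rw [FreeGroup.map.mk]
    rfl
  rw [h]
  have h2 : (FreeGroup.lift f).comp (FreeGroup.map Sum.inl) =
      FreeGroup.lift (f ∘ Sum.inl) := by
    ext x
    simp
  exact DFunLike.congr_fun h2 (FreeGroup.mk L)

theorem lift_conj (f : γ ⊕ γ → W) (w : List (γ × Bool)) (z : γ) :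
    FreeGroup.lift f (FreeGroup.mk ([(Sum.inr z, true)] ++ (oldWord w ++
      ([(Sum.inr z, false)] ++ [(Sum.inl z, false)])))) =
    f (Sum.inr z) * (FreeGroup.lift (f ∘ Sum.inl) (FreeGroup.mk w) *
      ((f (Sum.inr z))⁻¹ * (f (Sum.inl z))⁻¹)) := by
  rw [← FreeGroup.mul_mk, ← FreeGroup.mul_mk, ← FreeGroup.mul_mk, map_mul, map_mul, map_mul,
    lift_oldWord]
  simp

/-- what it means that letters of a group satisfy the new relations -/
theorem fam_iff (gens : List γ) (hg : ∀ z, z ∈ gens) (R : List (List (γ × Bool)))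
    (w : List (γ × Bool)) (f : γ ⊕ γ → W) :
    (∀ r ∈ relSet (famRels gens R w), FreeGroup.lift f r = 1) ↔
      (∀ r ∈ relSet R, FreeGroup.lift (f ∘ Sum.inl) r = 1) ∧
      ∀ z, f (Sum.inr z) * FreeGroup.lift (f ∘ Sum.inl) (FreeGroup.mk w) *
        (f (Sum.inr z))⁻¹ = f (Sum.inl z) := by
  constructor
  · intro h
    constructor
    · rintro r ⟨L, hL, rfl⟩
      rw [← lift_oldWord]
      exact h _ ⟨oldWord L, List.mem_append_left _ (List.mem_map.2 ⟨L, hL, rfl⟩), rfl⟩
    · intro z
      have h1 := h _ ⟨_, List.mem_append_right _ (List.mem_map.2 ⟨z, hg z, rfl⟩), rfl⟩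
      rw [lift_conj, ← mul_assoc, ← mul_assoc, mul_inv_eq_one] at h1
      exact h1
  · rintro ⟨h1, h2⟩ r ⟨L, hL, rfl⟩
    rcases List.mem_append.1 hL with hL | hL
    · obtain ⟨L', hL', rfl⟩ := List.mem_map.1 hL
      rw [lift_oldWord]
      exact h1 _ ⟨L', hL', rfl⟩
    · obtain ⟨z, -, rfl⟩ := List.mem_map.1 hL
      rw [lift_conj, ← mul_assoc, ← mul_assoc, mul_inv_eq_one]
      exact h2 z

theorem lift_of_eq_mk (R : Set (FreeGroup γ)) :
    FreeGroup.lift (PresentedGroup.of (rels := R)) = PresentedGroup.mk R := by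
  ext x
  simp [PresentedGroup.of]

variable (gens : List γ) (hg : ∀ z, z ∈ gens) (R : List (List (γ × Bool)))
  (w : List (γ × Bool))

include hg in
theorem fam_of : (∀ r ∈ relSet R, FreeGroup.lift
      ((PresentedGroup.of (rels := relSet (famRels gens R w))) ∘ Sum.inl) r = 1) ∧
      ∀ z, (PresentedGroup.of (rels := relSet (famRels gens R w))) (Sum.inr z) *
        FreeGroup.lift ((PresentedGroup.of (rels := relSet (famRels gens R w))) ∘ Sum.inl)
          (FreeGroup.mk w) *
        ((PresentedGroup.of (rels := relSet (famRels gens R w))) (Sum.inr z))⁻¹ =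
        (PresentedGroup.of (rels := relSet (famRels gens R w))) (Sum.inl z) := by
  rw [← fam_iff gens hg R w]
  intro r hr
  rw [lift_of_eq_mk]
  exact PresentedGroup.one_of_mem hr

/-- the homomorphism from the old to the new group -/
noncomputable def famEmb : Pr R →* Pr (famRels gens R w) :=
  PresentedGroup.toGroup (fam_of gens hg R w).1

theorem famEmb_of (z : γ) : famEmb gens hg R w (PresentedGroup.of z) =
    PresentedGroup.of (Sum.inl z) := by
  simp [famEmb]

theorem famEmb_mk (L : List (γ × Bool)) :
    famEmb gens hg R w (PresentedGroup.mk _ (FreeGroup.mk L)) =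
      PresentedGroup.mk _ (FreeGroup.mk (oldWord L)) := by
  have h : (famEmb gens hg R w).comp (PresentedGroup.mk (relSet R)) =
      FreeGroup.lift ((PresentedGroup.of (rels := relSet (famRels gens R w))) ∘ Sum.inl) := by
    ext x
    exact (famEmb_of gens hg R w x).trans (by simp)
  have h2 := DFunLike.congr_fun h (FreeGroup.mk L)
  rw [← lift_oldWord, lift_of_eq_mk] at h2
  exact h2

include hg in
/-- If the word is trivial, all old generators become trivial. -/
theorem fam_trivial (hw : PresentedGroup.mk (relSet R) (FreeGroup.mk w) = 1) (z : γ) :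
    (PresentedGroup.of (Sum.inl z) : Pr (famRels gens R w)) = 1 := by
  have h := (fam_of gens hg R w).2 z
  have h2 : FreeGroup.lift ((PresentedGroup.of (rels := relSet (famRels gens R w))) ∘ Sum.inl)
      (FreeGroup.mk w) = 1 := by
    rw [← lift_oldWord, lift_of_eq_mk, ← famEmb_mk gens hg R w, hw, map_one]
  rw [h2, mul_one, mul_inv_cancel] at h
  exact h.symm

include hg in
/-- If the word is trivial, the new group is free on the letters `g_z`. -/
theorem fam_free (hw : PresentedGroup.mk (relSet R) (FreeGroup.mk w) = 1) :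
    ∃ e : Pr (famRels gens R w) ≃* FreeGroup γ,
      (∀ z, e (PresentedGroup.of (Sum.inr z)) = FreeGroup.of z) ∧
      ∀ z, e (PresentedGroup.of (Sum.inl z)) = 1 := by
  let f : γ ⊕ γ → FreeGroup γ := Sum.elim (fun _ => 1) FreeGroup.of
  have hf1 : FreeGroup.lift (f ∘ Sum.inl) = (1 : FreeGroup γ →* FreeGroup γ) := by
    ext x
    simp [f]
  have hf : ∀ r ∈ relSet (famRels gens R w), FreeGroup.lift f r = 1 := by
    rw [fam_iff gens hg R w, hf1]
    refine ⟨fun r _ => rfl, fun z => ?_⟩
    simp [f]
  let e1 : Pr (famRels gens R w) →* FreeGroup γ := PresentedGroup.toGroup hf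
  let e2 : FreeGroup γ →* Pr (famRels gens R w) :=
    FreeGroup.lift (fun z => PresentedGroup.of (Sum.inr z))
  have h12 : e2.comp e1 = MonoidHom.id _ := by
    ext x
    rcases x with z | z
    · simp [e1, e2, f, fam_trivial gens hg R w hw z]
    · simp [e1, e2, f]
  have h21 : e1.comp e2 = MonoidHom.id _ := by
    ext z
    simp [e1, e2, f]
  refine ⟨MonoidHom.toMulEquiv e1 e2 h12 h21, ?_, ?_⟩
  · intro z
    simp [e1, f]
  · intro z
    simp [e1, f]

/-- If the word and all generators have infinite order, the old group embeds. -/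
theorem fam_injective (hw : ∀ j : ℤ, j ≠ 0 →
      (PresentedGroup.mk (relSet R) (FreeGroup.mk w)) ^ j ≠ 1)
    (hgen : ∀ z : γ, ∀ j : ℤ, j ≠ 0 → (PresentedGroup.of (rels := relSet R) z) ^ j ≠ 1) :
    Injective (famEmb gens hg R w) := by
  -- enumerate the generators
  let z : Fin gens.length → γ := fun i => gens.get i
  have hinj : ∀ u : Pr R, (∀ j : ℤ, j ≠ 0 → u ^ j ≠ 1) → Injective (zpowersHom (Pr R) u) := by
    intro u hu
    rw [injective_iff_map_eq_one]
    intro a ha
    by_contra hne
    refine hu (Multiplicative.toAdd a) (fun h => hne ?_) ?_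
    · exact h
    · simpa using ha
  obtain ⟨G', inst, ι, p, hι, hp, -⟩ := tower gens.length (Pr R)
    (fun _ => Multiplicative ℤ)
    (fun _ => zpowersHom (Pr R) (PresentedGroup.mk (relSet R) (FreeGroup.mk w)))
    (fun i => zpowersHom (Pr R) (PresentedGroup.of (rels := relSet R) (z i)))
    (fun _ => hinj _ hw) (fun i => hinj _ (hgen (z i))) ⊤ (fun _ _ => by simp)
  have hidx : ∀ y : γ, ∃ i, z i = y := by
    intro y
    obtain ⟨i, hi⟩ := List.get_of_mem (hg y)
    exact ⟨i, hi⟩
  choose idx hidx using hidx
  let f : γ ⊕ γ → G' := Sum.elim (fun y => ι (PresentedGroup.of y)) (fun y => p (idx y))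
  have hf0 : FreeGroup.lift (f ∘ Sum.inl) = ι.comp (PresentedGroup.mk (relSet R)) := by
    ext x
    simp [f, PresentedGroup.of]
  have hf : ∀ r ∈ relSet (famRels gens R w), FreeGroup.lift f r = 1 := by
    rw [fam_iff gens hg R w, hf0]
    constructor
    · intro r hr
      rw [MonoidHom.comp_apply, PresentedGroup.one_of_mem hr, map_one]
    · intro y
      have h := hp (idx y) (Multiplicative.ofAdd 1)
      simp only [zpowersHom_apply, toAdd_ofAdd, zpow_one, hidx] at h
      rw [mul_inv_eq_iff_eq_mul]
      exact h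
  let e : Pr (famRels gens R w) →* G' := PresentedGroup.toGroup hf
  have he : e.comp (famEmb gens hg R w) = ι := by
    ext x
    simp [e, famEmb_of, f]
  refine Injective.of_comp (f := e) ?_
  have : (e ∘ (famEmb gens hg R w)) = ι := by
    funext x
    exact DFunLike.congr_fun he x
  rw [this]
  exact hι

end

end NB
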