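import Mathlib

/-!
# Novikov-Boone, part 7: Turing machines as number machines

A configuration of a Turing machine (model `TM0` of Mathlib) is coded by two natural
numbers and the state.
-/

namespace NB

open Turing StateTransition

section digits

variable (Γ : Type) [Fintype Γ] [Inhabited Γ]

/-- the base of the number system -/
def bs : ℕ := Fintype.card Γ

theorem exists_digits : ∃ e : Γ ≃ Fin (bs Γ), (e default : ℕ) = 0 := by
  classical
  let e0 : Γ ≃ Fin (bs Γ) := Fintype.equivFin Γ
  have hpos : 0 < bs Γ := Fintype.card_pos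
  refine ⟨e0.trans (Equiv.swap (e0 default) ⟨0, hpos⟩), ?_⟩
  simp

/-- the digits -/
noncomputable def digE : Γ ≃ Fin (bs Γ) := (exists_digits Γ).choose

theorem digE_default : (digE Γ default : ℕ) = 0 := (exists_digits Γ).choose_spec

variable {Γ}

/-- the digit of a letter -/
noncomputable def dig (a : Γ) : ℕ := (digE Γ a : ℕ)

theorem dig_lt (a : Γ) : dig a < bs Γ := (digE Γ a).isLt

theorem dig_default : dig (default : Γ) = 0 := digE_default Γ

theorem bs_pos : 0 < bs Γ := Fintype.card_pos

variable (Γ) in
/-- the letter of a digit -/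
noncomputable def sym (d : ℕ) : Γ := if h : d < bs Γ then (digE Γ).symm ⟨d, h⟩ else default

theorem sym_dig (a : Γ) : sym Γ (dig a) = a := by
  unfold sym
  rw [dif_pos (dig_lt a)]
  simp [dig]

theorem dig_sym {d : ℕ} (h : d < bs Γ) : dig (sym Γ d) = d := by
  unfold sym
  rw [dif_pos h]
  simp [dig]

/-- the number of a list -/
noncomputable def num (L : List Γ) : ℕ := L.foldr (fun a s => dig a + bs Γ * s) 0

theorem num_nil : num ([] : List Γ) = 0 := rfl

theorem num_cons (a : Γ) (L : List Γ) : num (a :: L) = dig a + bs Γ * num L := rfl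

theorem num_append_blank (L : List Γ) (n : ℕ) :
    num (L ++ List.replicate n default) = num L := by
  induction L with
  | nil =>
    rw [List.nil_append, num_nil]
    induction n with
    | zero => rfl
    | succ n ih => rw [List.replicate_succ, num_cons, ih, dig_default, mul_zero, add_zero]
  | cons a L ih => rw [List.cons_append, num_cons, num_cons, ih]

/-- the number of a half tape -/
noncomputable def numB (L : ListBlank Γ) : ℕ :=
  L.liftOn num (by
    rintro a _ ⟨i, rfl⟩
    exact (num_append_blank a i).symm)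

theorem numB_mk (L : List Γ) : numB (ListBlank.mk L) = num L := rfl

theorem numB_cons (a : Γ) (L : ListBlank Γ) : numB (L.cons a) = dig a + bs Γ * numB L :=
  L.induction_on fun _ => rfl

theorem numB_mod (L : ListBlank Γ) : numB L % bs Γ = dig L.head := by
  conv_lhs => rw [← ListBlank.cons_head_tail L]
  rw [numB_cons, Nat.add_mul_mod_self_left, Nat.mod_eq_of_lt (dig_lt _)]

theorem numB_div (L : ListBlank Γ) : numB L / bs Γ = numB L.tail := by
  conv_lhs => rw [← ListBlank.cons_head_tail L]
  rw [numB_cons, Nat.add_mul_div_left _ _ bs_pos, Nat.div_eq_of_lt (dig_lt _), zero_add]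

theorem numB_eq (L : ListBlank Γ) : numB L = dig L.head + bs Γ * numB L.tail := by
  conv_lhs => rw [← ListBlank.cons_head_tail L]
  rw [numB_cons]

end digits

section machine

variable {Γ : Type} [Fintype Γ] [Inhabited Γ] {Λ : Type} [Inhabited Λ]
  (M : TM0.Machine Γ Λ)

/-- the effect of a statement on the pair of numbers -/
noncomputable def nact (l r : ℕ) : TM0.Stmt Γ → ℕ × ℕ
  | TM0.Stmt.move Dir.left => (l / bs Γ, l % bs Γ + bs Γ * r)
  | TM0.Stmt.move Dir.right => (r % bs Γ + bs Γ * l, r / bs Γ)
  | TM0.Stmt.write b => (l, dig b + bs Γ * (r / bs Γ))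

/-- one step of the number machine -/
noncomputable def nstep (c : (ℕ × ℕ) × Λ) : Option ((ℕ × ℕ) × Λ) :=
  (M c.2 (sym Γ (c.1.2 % bs Γ))).map (fun p => (nact c.1.1 c.1.2 p.2, p.1))

/-- the code of a configuration -/
noncomputable def ncode (c : TM0.Cfg Γ Λ) : (ℕ × ℕ) × Λ :=
  ((numB c.Tape.left, dig c.Tape.head + bs Γ * numB c.Tape.right), c.q)

theorem head_mod (T : Tape Γ) :
    (dig T.head + bs Γ * numB T.right) % bs Γ = dig T.head := by
  rw [Nat.add_mul_mod_self_left, Nat.mod_eq_of_lt (dig_lt _)]

theorem head_div (T : Tape Γ) :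
    (dig T.head + bs Γ * numB T.right) / bs Γ = numB T.right := by
  rw [Nat.add_mul_div_left _ _ bs_pos, Nat.div_eq_of_lt (dig_lt _), zero_add]

theorem nstep_ncode (c : TM0.Cfg Γ Λ) :
    nstep M (ncode c) = (TM0.step M c).map ncode := by
  obtain ⟨q, T⟩ := c
  simp only [nstep, ncode, TM0.step, head_mod, sym_dig]
  rcases hM : M q T.head with _ | ⟨q', s⟩
  · rfl
  · simp only [Option.map_some]
    congr 2
    rcases s with (_ | _) | b
    · -- left
      obtain ⟨a, L, R⟩ := T
      simp only [nact, Tape.move, numB_mod, numB_div, numB_cons]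
    · obtain ⟨a, L, R⟩ := T
      simp only [nact, Tape.move, numB_cons]
      have h1 := head_mod ⟨a, L, R⟩
      have h2 := head_div ⟨a, L, R⟩
      simp only at h1 h2
      rw [h1, h2, numB_eq R]
    · simp only [nact, Tape.write, head_div]

theorem ncode_dom (c : TM0.Cfg Γ Λ) :
    (eval (nstep M) (ncode c)).Dom ↔ (eval (TM0.step M) c).Dom := by
  have h : Respects (TM0.step M) (nstep M) (fun a b => ncode a = b) := by
    rw [fun_respects]
    intro c
    have h1 := nstep_ncode M c
    rcases hc : TM0.step M c with _ | c'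
    · rw [hc] at h1
      exact h1
    · rw [hc] at h1
      exact Relation.TransGen.single h1
  exact tr_eval_dom h rfl

theorem ncode_init (L : List Γ) :
    ncode (TM0.init L : TM0.Cfg Γ Λ) = ((0, num L), default) := by
  have h1 : (TM0.init L : TM0.Cfg Γ Λ).Tape.left = ListBlank.mk [] := rfl
  have h2 : (TM0.init L : TM0.Cfg Γ Λ).Tape.head = (ListBlank.mk L).head := rfl
  have h3 : (TM0.init L : TM0.Cfg Γ Λ).Tape.right = (ListBlank.mk L).tail := rfl
  simp only [ncode, h1, h2, h3]
  rw [← numB_eq, numB_mk, numB_mk, num_nil]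
  rfl

/-- halting of the number machine on the coded input is halting of the Turing machine -/
theorem nstep_dom_init (L : List Γ) :
    (eval (nstep M) ((0, num L), default)).Dom ↔ (TM0.eval M L).Dom := by
  rw [← ncode_init L, ncode_dom]
  rfl

end machine

end NB
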