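import Mathlib

/-!
# Novikov-Boone, part 3: the base group `FreeGroup A ⋊ A`
-/

namespace NB

open Function

section free

variable {α β : Type}

open Classical in
/-- kill the generators outside `S` -/
noncomputable def killOut (S : Set α) : FreeGroup α →* FreeGroup α :=
  FreeGroup.lift (fun a => if a ∈ S then FreeGroup.of a else 1)

theorem killOut_mem (S : Set α) (w : FreeGroup α) :
    killOut S w ∈ Subgroup.closure (FreeGroup.of '' S) := by
  induction w using FreeGroup.induction_on with
  | C1 => simp
  | of a =>
    by_cases h : a ∈ S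
    · simp only [killOut, FreeGroup.lift_apply_of, h, if_true]
      exact Subgroup.subset_closure ⟨a, h, rfl⟩
    · simp only [killOut, FreeGroup.lift_apply_of, h, if_false]
      exact Subgroup.one_mem _
  | inv_of a ih => rw [map_inv]; exact Subgroup.inv_mem _ ih
  | mul x y hx hy => rw [map_mul]; exact Subgroup.mul_mem _ hx hy

theorem killOut_of_mem (S : Set α) (w : FreeGroup α)
    (hw : w ∈ Subgroup.closure (FreeGroup.of '' S)) : killOut S w = w := by
  induction hw using Subgroup.closure_induction with
  | mem x hx =>
    obtain ⟨a, ha, rfl⟩ := hx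
    simp [killOut, ha]
  | one => simp
  | mul x y _ _ hx hy => rw [map_mul, hx, hy]
  | inv x _ hx => rw [map_inv, hx]

theorem mem_closure_iff_killOut (S : Set α) (w : FreeGroup α) :
    w ∈ Subgroup.closure (FreeGroup.of '' S) ↔ killOut S w = w :=
  ⟨killOut_of_mem S w, fun h => h ▸ killOut_mem S w⟩

theorem killOut_map (f : α → β) (S : Set β) (w : FreeGroup α) :
    killOut S (FreeGroup.map f w) = FreeGroup.map f (killOut (f ⁻¹' S) w) := by
  induction w using FreeGroup.induction_on with
  | C1 => simp
  | of a =>
    by_cases h : f a ∈ S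
    · simp [killOut, h]
    · simp [killOut, h]
  | inv_of a ih => rw [map_inv, map_inv, map_inv, map_inv, ih]
  | mul x y hx hy => rw [map_mul, map_mul, map_mul, map_mul, hx, hy]

theorem map_mem_closure_iff (f : α → β) (hf : Injective f) (S : Set β) (w : FreeGroup α) :
    FreeGroup.map f w ∈ Subgroup.closure (FreeGroup.of '' S) ↔
      w ∈ Subgroup.closure (FreeGroup.of '' (f ⁻¹' S)) := by
  rw [mem_closure_iff_killOut, mem_closure_iff_killOut, killOut_map]
  exact (FreeGroup.map_injective hf).eq_iff

end free

variable (A : Type) [AddCommGroup A] (B : Type) [AddCommGroup B]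

/-- the translation action of `A` on the free group on `A` -/
def shift : Multiplicative A →* MulAut (FreeGroup A) where
  toFun a := FreeGroup.freeGroupCongr (Equiv.addLeft a.toAdd)
  map_one' := by
    ext x
    simp
  map_mul' a b := by
    ext x
    simp only [FreeGroup.freeGroupCongr_apply, MulAut.mul_apply, FreeGroup.map.comp]
    congr 2
    ext y
    simp

/-- the base group -/
abbrev KK := FreeGroup A ⋊[shift A] Multiplicative A

variable {A B}

@[simp] theorem shift_of (a : Multiplicative A) (b : A) :
    shift A a (FreeGroup.of b) = FreeGroup.of (a.toAdd + b) := by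
  simp [shift]

/-- the endomorphism given by an affine map -/
def theta (f0 : A) (F : B →+ A) : KK B →* KK A :=
  SemidirectProduct.map (FreeGroup.map fun b => f0 + F b) (AddMonoidHom.toMultiplicative F)
    (by
      intro g
      ext b
      simp only [MonoidHom.comp_apply, MulEquiv.coe_toMonoidHom, shift_of, FreeGroup.map.of,
        map_add]
      congr 1
      rw [← add_assoc, ← add_assoc]
      congr 1
      rw [add_comm]
      rfl)

theorem theta_injective (f0 : A) (F : B →+ A) (hF : Injective F) :
    Injective (theta f0 F) := by
  have h1 : Injective (fun b => f0 + F b) := fun x y h => hF (add_left_cancel h)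
  rintro ⟨n, g⟩ ⟨n', g'⟩ h
  have hl := congrArg SemidirectProduct.left h
  have hr := congrArg SemidirectProduct.right h
  simp only [theta, SemidirectProduct.map_left, SemidirectProduct.map_right] at hl hr
  have e1 := FreeGroup.map_injective h1 hl
  have e2 : g = g' := hF hr
  rw [e1, e2]

/-- the subgroup of the base group generated by the letters `t(a)`, `a ∈ S` -/
def HS (S : Set A) : Subgroup (KK A) :=
  (Subgroup.closure (FreeGroup.of '' S)).map SemidirectProduct.inl

theorem mem_HS (S : Set A) (z : KK A) :
    z ∈ HS S ↔ z.right = 1 ∧ z.left ∈ Subgroup.closure (FreeGroup.of '' S) := by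
  constructor
  · rintro ⟨n, hn, rfl⟩
    exact ⟨rfl, hn⟩
  · rintro ⟨h1, h2⟩
    refine ⟨z.left, h2, ?_⟩
    ext
    · rfl
    · exact h1.symm

theorem theta_mem_HS (f0 : A) (F : B →+ A) (hF : Injective F) (S : Set A) (z : KK B) :
    theta f0 F z ∈ HS S ↔ z ∈ HS {b | f0 + F b ∈ S} := by
  have h1 : Injective (fun b => f0 + F b) := fun x y h => hF (add_left_cancel h)
  rw [mem_HS, mem_HS]
  have e1 : (theta f0 F z).right = 1 ↔ z.right = 1 := by
    constructor
    · intro h
      have : F (z.right.toAdd) = F 0 := by
        rw [map_zero]
        exact h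
      exact hF this
    · intro h
      simp only [theta, SemidirectProduct.map_right, h, map_one]
  rw [e1]
  refine and_congr_right fun _ => ?_
  exact map_mem_closure_iff _ h1 S z.left

/-- the letter `t(a)` -/
def tt (a : A) : KK A := SemidirectProduct.inl (FreeGroup.of a)

theorem tt_mem_HS (S : Set A) (a : A) : tt a ∈ HS S ↔ a ∈ S := by
  rw [mem_HS]
  constructor
  · rintro ⟨-, h⟩
    by_contra ha
    rw [mem_closure_iff_killOut] at h
    have h2 : killOut S (FreeGroup.of a) = 1 := by simp [killOut, ha]
    have h3 : killOut S (FreeGroup.of a) = FreeGroup.of a := h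
    rw [h2] at h3
    exact FreeGroup.of_ne_one a h3.symm
  · intro h
    exact ⟨rfl, Subgroup.subset_closure ⟨a, h, rfl⟩⟩

/-- the translation letters -/
def xx (a : A) : KK A := SemidirectProduct.inr (Multiplicative.ofAdd a)

theorem xx_add (a b : A) : xx (a + b) = xx a * xx b := by
  simp [xx]

theorem xx_conj (a b : A) : xx a * tt b * (xx a)⁻¹ = tt (a + b) := by
  unfold xx tt
  rw [← map_inv, ← SemidirectProduct.inl_aut, shift_of]
  rfl

theorem theta_tt (f0 : A) (F : B →+ A) (b : B) : theta f0 F (tt b) = tt (f0 + F b) := by
  simp [theta, tt]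

theorem theta_xx (f0 : A) (F : B →+ A) (b : B) : theta f0 F (xx b) = xx (F b) := by
  simp [theta, xx]

theorem xx_injective : Injective (xx : A → KK A) := by
  intro a b h
  have := SemidirectProduct.inr_injective h
  exact this

end NB
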