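import Mathlib
import Pool.Agent.NB.Tower
import Pool.Agent.NB.Base

/-!
# Novikov-Boone, part 4: the concrete group for a system of affine rules
-/

namespace NB

open Function

section wreath

variable {G : Type} [Group G] (H : Subgroup G)

/-- the permutational wreath product `ℤ wr (G/H)` (unrestricted) -/
abbrev WW := (G ⧸ H → Multiplicative ℤ) ⋊[mulAutArrow (G := G) (A := G ⧸ H)
  (M := Multiplicative ℤ)] G

open Classical in
/-- the indicator of the base coset -/
noncomputable def dlt : G ⧸ H → Multiplicative ℤ :=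
  fun x => if x = ((1 : G) : G ⧸ H) then Multiplicative.ofAdd (1 : ℤ) else 1

/-- the letter `k` -/
noncomputable def kk : WW H := SemidirectProduct.inl (dlt H)

theorem smul_one_eq (h : G) : h⁻¹ • ((1 : G) : G ⧸ H) = ((1 : G) : G ⧸ H) ↔ h ∈ H := by
  have : h⁻¹ • ((1 : G) : G ⧸ H) = ((h⁻¹ : G) : G ⧸ H) := by
    rw [MulAction.Quotient.smul_coe]
    simp
  rw [this, QuotientGroup.eq]
  simp

theorem kk_commute (h : G) (hh : h ∈ H) : Commute (kk H) (SemidirectProduct.inr h) := by
  have h1 : (SemidirectProduct.inr h : WW H) * kk H * (SemidirectProduct.inr h)⁻¹ = kk H := by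
    unfold kk
    rw [← map_inv, ← SemidirectProduct.inl_aut]
    congr 1
    funext x
    change dlt H (h⁻¹ • x) = dlt H x
    have h2 : h⁻¹ • x = ((1 : G) : G ⧸ H) ↔ x = ((1 : G) : G ⧸ H) := by
      rw [inv_smul_eq_iff]
      have h3 := (smul_one_eq H h⁻¹).2 (H.inv_mem hh)
      rw [inv_inv] at h3
      rw [h3]
    by_cases hx : x = ((1 : G) : G ⧸ H)
    · have h3 : h⁻¹ • x = ((1 : G) : G ⧸ H) := h2.2 hx
      simp only [dlt]
      rw [if_pos h3, if_pos hx]
    · have h3 : ¬ h⁻¹ • x = ((1 : G) : G ⧸ H) := fun h => hx (h2.1 h)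
      simp only [dlt]
      rw [if_neg h3, if_neg hx]
  have h4 := mul_inv_eq_iff_eq_mul.1 h1
  exact h4.symm

theorem kk_comm_pow (z : G) (hz : z ∉ H) (j : ℤ) (hj : j ≠ 0) :
    (kk H * SemidirectProduct.inr z * (kk H)⁻¹ * (SemidirectProduct.inr z)⁻¹) ^ j ≠ 1 := by
  have h1 : kk H * SemidirectProduct.inr z * (kk H)⁻¹ * (SemidirectProduct.inr z)⁻¹ =
      SemidirectProduct.inl (dlt H * (mulAutArrow (G := G) (A := G ⧸ H)
        (M := Multiplicative ℤ) z (dlt H))⁻¹) := by
    rw [map_mul, map_inv, SemidirectProduct.inl_aut]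
    unfold kk
    simp [mul_assoc]
  rw [h1, ← map_zpow]
  intro h2
  have h3 := SemidirectProduct.inl_injective (h2.trans (map_one _).symm)
  have h4 := congrFun h3 ((1 : G) : G ⧸ H)
  have h5 : (mulAutArrow (G := G) (A := G ⧸ H) (M := Multiplicative ℤ) z (dlt H))
      ((1 : G) : G ⧸ H) = 1 := by
    change dlt H (z⁻¹ • ((1 : G) : G ⧸ H)) = 1
    have h6 : ¬ (z⁻¹ • ((1 : G) : G ⧸ H) = ((1 : G) : G ⧸ H)) := by
      rw [smul_one_eq]
      exact hz
    simp only [dlt, h6, if_false]
  simp only [Pi.pow_apply, Pi.mul_apply, Pi.inv_apply, h5, inv_one, mul_one, Pi.one_apply] at h4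
  have h7 : dlt H ((1 : G) : G ⧸ H) = Multiplicative.ofAdd (1 : ℤ) := by simp [dlt]
  rw [h7, ← ofAdd_zsmul] at h4
  have h8 : j • (1 : ℤ) = 0 := h4
  simp at h8
  exact hj h8

end wreath

/-- The concrete group: affine rules `f0 + F b ~ g0 + G b` on an abelian group `A` and a
set `S` closed under the rules (in both directions) give a group in which the last letter
`k` commutes with the rule letters and with `t(a)` for `a ∈ S`, and the commutators
`[k, t(a)]`, `a ∉ S`, have infinite order. -/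
theorem model {A : Type} [AddCommGroup A] {n : ℕ} (B : Fin n → Type)
    [∀ i, AddCommGroup (B i)] (f0 g0 : Fin n → A) (F G : ∀ i, B i →+ A)
    (hF : ∀ i, Injective (F i)) (hG : ∀ i, Injective (G i)) (S : Set A)
    (hS : ∀ i b, f0 i + F i b ∈ S ↔ g0 i + G i b ∈ S) :
    ∃ (W : Type) (_ : Group W) (ι : KK A →* W) (p : Fin n → W) (k : W),
      Injective ι ∧
      (∀ i b, p i * ι (tt (f0 i + F i b)) = ι (tt (g0 i + G i b)) * p i) ∧
      (∀ i b, p i * ι (xx (F i b)) = ι (xx (G i b)) * p i) ∧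
      (∀ i, Commute k (p i)) ∧ (∀ a ∈ S, Commute k (ι (tt a))) ∧
      ∀ a, a ∉ S → ∀ j : ℤ, j ≠ 0 → (k * ι (tt a) * k⁻¹ * (ι (tt a))⁻¹) ^ j ≠ 1 := by
  obtain ⟨G', inst, ι, p, hι, hp, hz⟩ := tower n (KK A) (fun i => KK (B i))
    (fun i => theta (f0 i) (F i)) (fun i => theta (g0 i) (G i))
    (fun i => theta_injective _ _ (hF i)) (fun i => theta_injective _ _ (hG i)) (HS S)
    (by
      intro i x
      rw [theta_mem_HS _ _ (hF i), theta_mem_HS _ _ (hG i)]
      have : {b | f0 i + F i b ∈ S} = {b | g0 i + G i b ∈ S} := by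
        ext b
        exact hS i b
      rw [this])
  let H : Subgroup G' := Subgroup.closure ((ι '' (HS S : Set (KK A))) ∪ Set.range p)
  refine ⟨WW H, inferInstance, SemidirectProduct.inr.comp ι,
    fun i => SemidirectProduct.inr (p i), kk H, ?_, ?_, ?_, ?_, ?_, ?_⟩
  · exact SemidirectProduct.inr_injective.comp hι
  · intro i b
    have h := hp i (tt b)
    rw [theta_tt, theta_tt] at h
    simp only [MonoidHom.comp_apply, ← map_mul, h]
  · intro i b
    have h := hp i (xx b)
    rw [theta_xx, theta_xx] at h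
    simp only [MonoidHom.comp_apply, ← map_mul, h]
  · intro i
    exact kk_commute H _ (Subgroup.subset_closure (Or.inr ⟨i, rfl⟩))
  · intro a ha
    exact kk_commute H _ (Subgroup.subset_closure (Or.inl ⟨tt a, (tt_mem_HS S a).2 ha, rfl⟩))
  · intro a ha j hj
    refine kk_comm_pow H _ ?_ j hj
    intro h
    exact ha ((tt_mem_HS S a).1 (hz _ h))

end NB
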