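import Mathlib
import Pool.Agent.NB.Model

/-!
# Novikov-Boone, part 5: the finite presentation attached to a system of affine rules
on `ℤ³`
-/

namespace NB

open Function

/-- An affine rule `(a₁ + p₁ u, a₂ + p₂ v, a₃) ~ (c₁ + q₁ u, c₂ + q₂ v, c₃)`. -/
structure Rule where
  a₁ : ℕ
  p₁ : ℕ
  a₂ : ℕ
  p₂ : ℕ
  a₃ : ℕ
  c₁ : ℕ
  q₁ : ℕ
  c₂ : ℕ
  q₂ : ℕ
  c₃ : ℕ
  hp₁ : p₁ ≠ 0
  hp₂ : p₂ ≠ 0
  hq₁ : q₁ ≠ 0
  hq₂ : q₂ ≠ 0

abbrev V3 := ℤ × ℤ × ℤ

/-- left hand side of a rule -/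
def Rule.lhs (r : Rule) (u v : ℤ) : V3 := (r.a₁ + r.p₁ * u, r.a₂ + r.p₂ * v, r.a₃)

/-- right hand side of a rule -/
def Rule.rhs (r : Rule) (u v : ℤ) : V3 := (r.c₁ + r.q₁ * u, r.c₂ + r.q₂ * v, r.c₃)

/-- the equivalence relation on `ℤ³` generated by the rules -/
def Conn {n : ℕ} (rules : Fin n → Rule) : V3 → V3 → Prop :=
  Relation.EqvGen (fun x y => ∃ i u v, x = (rules i).lhs u v ∧ y = (rules i).rhs u v)

/-- the generators: three translations, `t`, `k` and one letter for each rule -/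
abbrev Gen (n : ℕ) := Fin 5 ⊕ Fin n

variable {n : ℕ}

def gx1 : Gen n := Sum.inl 0
def gx2 : Gen n := Sum.inl 1
def gx3 : Gen n := Sum.inl 2
def gt : Gen n := Sum.inl 3
def gk : Gen n := Sum.inl 4
def gr (i : Fin n) : Gen n := Sum.inr i

/-- the word `x₁^a x₂^b x₃^c t^(±1) x₃^(-c) x₂^(-b) x₁^(-a)` -/
def tWord (s : Bool) (a b c : ℕ) : List (Gen n × Bool) :=
  List.replicate a (gx1, true) ++ (List.replicate b (gx2, true) ++
    (List.replicate c (gx3, true) ++ ([(gt, s)] ++ (List.replicate c (gx3, false) ++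
      (List.replicate b (gx2, false) ++ List.replicate a (gx1, false))))))

/-- the commutator word `[k, t(a,b,c)]` -/
def cWord (a b c : ℕ) : List (Gen n × Bool) :=
  [(gk, true)] ++ (tWord true a b c ++ ([(gk, false)] ++ tWord false a b c))

/-- the commutator word of two letters -/
def commWord (x y : Gen n) : List (Gen n × Bool) :=
  [(x, true)] ++ ([(y, true)] ++ ([(x, false)] ++ [(y, false)]))

/-- the four relators of a rule -/
def ruleRels (i : Fin n) (r : Rule) : List (List (Gen n × Bool)) :=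
  [ [(gr i, true)] ++ (List.replicate r.p₁ (gx1, true) ++
      ([(gr i, false)] ++ List.replicate r.q₁ (gx1, false))),
    [(gr i, true)] ++ (List.replicate r.p₂ (gx2, true) ++
      ([(gr i, false)] ++ List.replicate r.q₂ (gx2, false))),
    [(gr i, true)] ++ (tWord true r.a₁ r.a₂ r.a₃ ++
      ([(gr i, false)] ++ tWord false r.c₁ r.c₂ r.c₃)),
    commWord gk (gr i) ]

/-- the list of all relators -/
def relList (rules : Fin n → Rule) (d₁ d₂ d₃ : ℕ) : List (List (Gen n × Bool)) :=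
  [commWord gx1 gx2, commWord gx1 gx3, commWord gx2 gx3, cWord d₁ d₂ d₃] ++
    (List.finRange n).flatMap (fun i => ruleRels i (rules i))

section eval

variable {W : Type*} [Group W] (f : Gen n → W)

/-- value of a word -/
def ev (L : List (Gen n × Bool)) : W := FreeGroup.lift f (FreeGroup.mk L)

@[simp] theorem ev_append (L₁ L₂ : List (Gen n × Bool)) :
    ev f (L₁ ++ L₂) = ev f L₁ * ev f L₂ := by
  unfold ev
  rw [← FreeGroup.mul_mk, map_mul]

@[simp] theorem ev_true (x : Gen n) : ev f [(x, true)] = f x := by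
  simp [ev]

@[simp] theorem ev_false (x : Gen n) : ev f [(x, false)] = (f x)⁻¹ := by
  simp [ev]

@[simp] theorem ev_replicate_true (m : ℕ) (x : Gen n) :
    ev f (List.replicate m (x, true)) = (f x) ^ m := by
  simp [ev]

@[simp] theorem ev_replicate_false (m : ℕ) (x : Gen n) :
    ev f (List.replicate m (x, false)) = ((f x) ^ m)⁻¹ := by
  simp [ev]

/-- the translation `x₁^a x₂^b x₃^c` -/
def Xv (a b c : ℤ) : W := f gx1 ^ a * f gx2 ^ b * f gx3 ^ c

/-- the conjugate `t(a,b,c)` -/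
def Tv (a b c : ℤ) : W := Xv f a b c * f gt * (Xv f a b c)⁻¹

theorem ev_tWord_true (a b c : ℕ) : ev f (tWord true a b c) = Tv f a b c := by
  simp only [tWord, ev_append, ev_replicate_true, ev_replicate_false, ev_true, Tv, Xv,
    zpow_natCast, mul_inv_rev, mul_assoc]

theorem ev_tWord_false (a b c : ℕ) : ev f (tWord false a b c) = (Tv f a b c)⁻¹ := by
  simp only [tWord, ev_append, ev_replicate_true, ev_replicate_false, ev_false, Tv, Xv,
    zpow_natCast, mul_inv_rev, mul_assoc, inv_inv]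

theorem ev_cWord (a b c : ℕ) : ev f (cWord a b c) =
    f gk * Tv f a b c * (f gk)⁻¹ * (Tv f a b c)⁻¹ := by
  rw [cWord, ev_append, ev_append, ev_append, ev_tWord_true, ev_tWord_false, ev_true, ev_false]
  simp only [mul_assoc]

theorem comm_iff (x y : W) : x * y * x⁻¹ * y⁻¹ = 1 ↔ Commute x y :=
  commutatorElement_eq_one_iff_commute

theorem ev_commWord (x y : Gen n) : ev f (commWord x y) = 1 ↔ Commute (f x) (f y) := by
  rw [commWord, ev_append, ev_append, ev_append, ev_true, ev_true, ev_false, ev_false,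
    ← mul_assoc, ← mul_assoc, comm_iff]

theorem semi_iff (r x y : W) : r * (x * (r⁻¹ * y⁻¹)) = 1 ↔ SemiconjBy r x y := by
  rw [← mul_assoc, ← mul_assoc, mul_inv_eq_one, mul_inv_eq_iff_eq_mul]
  rfl

/-- the relations, written as semiconjugations -/
structure RH (rules : Fin n → Rule) (d₁ d₂ d₃ : ℕ) (f : Gen n → W) : Prop where
  c12 : Commute (f gx1) (f gx2)
  c13 : Commute (f gx1) (f gx3)
  c23 : Commute (f gx2) (f gx3)
  ctgt : Commute (f gk) (Tv f d₁ d₂ d₃)
  r1 : ∀ i, SemiconjBy (f (gr i)) (f gx1 ^ (rules i).p₁) (f gx1 ^ (rules i).q₁)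
  r2 : ∀ i, SemiconjBy (f (gr i)) (f gx2 ^ (rules i).p₂) (f gx2 ^ (rules i).q₂)
  r3 : ∀ i, SemiconjBy (f (gr i)) (Tv f (rules i).a₁ (rules i).a₂ (rules i).a₃)
    (Tv f (rules i).c₁ (rules i).c₂ (rules i).c₃)
  r4 : ∀ i, Commute (f gk) (f (gr i))

theorem ruleRels_iff (i : Fin n) (r : Rule) : (∀ L ∈ ruleRels i r, ev f L = 1) ↔
    SemiconjBy (f (gr i)) (f gx1 ^ r.p₁) (f gx1 ^ r.q₁) ∧
    SemiconjBy (f (gr i)) (f gx2 ^ r.p₂) (f gx2 ^ r.q₂) ∧
    SemiconjBy (f (gr i)) (Tv f r.a₁ r.a₂ r.a₃) (Tv f r.c₁ r.c₂ r.c₃) ∧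
    Commute (f gk) (f (gr i)) := by
  unfold ruleRels
  simp only [List.mem_cons, List.not_mem_nil, or_false, forall_eq_or_imp, forall_eq,
    ev_commWord]
  simp only [ev_append, ev_true, ev_false, ev_replicate_true, ev_replicate_false,
    ev_tWord_true, ev_tWord_false, semi_iff]

theorem rh_iff (rules : Fin n → Rule) (d₁ d₂ d₃ : ℕ) :
    (∀ L ∈ relList rules d₁ d₂ d₃, ev f L = 1) ↔ RH rules d₁ d₂ d₃ f := by
  have h0 : (∀ L ∈ relList rules d₁ d₂ d₃, ev f L = 1) ↔
      ((∀ L ∈ ([commWord gx1 gx2, commWord gx1 gx3, commWord gx2 gx3, cWord d₁ d₂ d₃] :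
        List (List (Gen n × Bool))), ev f L = 1) ∧
        ∀ i, ∀ L ∈ ruleRels i (rules i), ev f L = 1) := by
    unfold relList
    constructor
    · intro h
      refine ⟨fun L hL => h L (List.mem_append_left _ hL), fun i L hL => h L ?_⟩
      exact List.mem_append_right _ (List.mem_flatMap.2 ⟨i, List.mem_finRange i, hL⟩)
    · rintro ⟨h1, h2⟩ L hL
      rcases List.mem_append.1 hL with hL | hL
      · exact h1 L hL
      · obtain ⟨i, -, hi⟩ := List.mem_flatMap.1 hL
        exact h2 i L hi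
  rw [h0]
  simp only [List.mem_cons, List.not_mem_nil, or_false, forall_eq_or_imp, forall_eq,
    ev_commWord, ev_cWord, comm_iff, ruleRels_iff]
  constructor
  · rintro ⟨⟨h1, h2, h3, h4⟩, h5⟩
    exact ⟨h1, h2, h3, h4, fun i => (h5 i).1, fun i => (h5 i).2.1, fun i => (h5 i).2.2.1,
      fun i => (h5 i).2.2.2⟩
  · rintro ⟨h1, h2, h3, h4, h5, h6, h7, h8⟩
    exact ⟨⟨h1, h2, h3, h4⟩, fun i => ⟨h5 i, h6 i, h7 i, h8 i⟩⟩

variable {f} {rules : Fin n → Rule} {d₁ d₂ d₃ : ℕ}

theorem RH.Xv_add (h : RH rules d₁ d₂ d₃ f) (a b c a' b' c' : ℤ) :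
    Xv f (a + a') (b + b') (c + c') = Xv f a' b' c' * Xv f a b c := by
  unfold Xv
  have e1 := (h.c12.zpow_zpow a b')
  have e2 := (h.c13.zpow_zpow a c')
  have e3 := (h.c23.zpow_zpow b c')
  have e4 := (h.c12.zpow_zpow a a)
  calc f gx1 ^ (a + a') * f gx2 ^ (b + b') * f gx3 ^ (c + c')
      = f gx1 ^ a' * (f gx1 ^ a * f gx2 ^ b') * (f gx2 ^ b * f gx3 ^ c') * f gx3 ^ c := by
        rw [add_comm a a', add_comm b b', add_comm c c', zpow_add, zpow_add, zpow_add]
        simp only [mul_assoc]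
    _ = f gx1 ^ a' * (f gx2 ^ b' * f gx1 ^ a) * (f gx3 ^ c' * f gx2 ^ b) * f gx3 ^ c := by
        rw [e1.eq, e3.eq]
    _ = f gx1 ^ a' * f gx2 ^ b' * (f gx1 ^ a * f gx3 ^ c') * f gx2 ^ b * f gx3 ^ c := by
        simp only [mul_assoc]
    _ = f gx1 ^ a' * f gx2 ^ b' * (f gx3 ^ c' * f gx1 ^ a) * f gx2 ^ b * f gx3 ^ c := by
        rw [e2.eq]
    _ = _ := by simp only [mul_assoc]

theorem RH.Tv_add (h : RH rules d₁ d₂ d₃ f) (a b c a' b' c' : ℤ) :
    Tv f (a + a') (b + b') (c + c') = Xv f a' b' c' * Tv f a b c * (Xv f a' b' c')⁻¹ := by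
  unfold Tv
  rw [h.Xv_add]
  simp only [mul_inv_rev, mul_assoc]

theorem RH.semi_X (h : RH rules d₁ d₂ d₃ f) (i : Fin n) (u v : ℤ) :
    SemiconjBy (f (gr i)) (Xv f ((rules i).p₁ * u) ((rules i).p₂ * v) 0)
      (Xv f ((rules i).q₁ * u) ((rules i).q₂ * v) 0) := by
  unfold Xv
  have h1 := (h.r1 i).zpow_right u
  have h2 := (h.r2 i).zpow_right v
  simp only [← zpow_natCast, ← zpow_mul] at h1 h2
  simpa using h1.mul_right h2

theorem RH.semi_T (h : RH rules d₁ d₂ d₃ f) (i : Fin n) (u v : ℤ) :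
    SemiconjBy (f (gr i)) (Tv f ((rules i).lhs u v).1 ((rules i).lhs u v).2.1
      ((rules i).lhs u v).2.2) (Tv f ((rules i).rhs u v).1 ((rules i).rhs u v).2.1
      ((rules i).rhs u v).2.2) := by
  have hX := h.semi_X i u v
  have e1 := h.Tv_add (rules i).a₁ (rules i).a₂ (rules i).a₃ ((rules i).p₁ * u)
    ((rules i).p₂ * v) 0
  have e2 := h.Tv_add (rules i).c₁ (rules i).c₂ (rules i).c₃ ((rules i).q₁ * u)
    ((rules i).q₂ * v) 0
  rw [add_zero] at e1 e2
  simp only [Rule.lhs, Rule.rhs]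
  rw [e1, e2]
  exact (hX.mul_right (h.r3 i)).mul_right hX.inv_right

theorem commute_semi_iff {r x y k : W} (h : SemiconjBy r x y) (hk : Commute k r) :
    Commute k x ↔ Commute k y := by
  have hy : y = r * x * r⁻¹ := (mul_inv_eq_iff_eq_mul.2 h.eq).symm
  have hx : x = r⁻¹ * y * r := by rw [hy]; group
  constructor
  · intro h1
    rw [hy]
    exact (hk.mul_right h1).mul_right hk.inv_right
  · intro h1
    rw [hx]
    exact (hk.inv_right.mul_right h1).mul_right hk

theorem RH.conn (h : RH rules d₁ d₂ d₃ f) {a b : V3} (hab : Conn rules a b) :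
    Commute (f gk) (Tv f a.1 a.2.1 a.2.2) ↔ Commute (f gk) (Tv f b.1 b.2.1 b.2.2) := by
  induction hab with
  | rel x y hxy =>
    obtain ⟨i, u, v, rfl, rfl⟩ := hxy
    exact commute_semi_iff (h.semi_T i u v) (h.r4 i)
  | refl => exact Iff.rfl
  | symm _ _ _ ih => exact ih.symm
  | trans _ _ _ _ _ ih1 ih2 => exact ih1.trans ih2

end eval

/-- the relators, as elements of the free group -/
def rels (rules : Fin n → Rule) (d₁ d₂ d₃ : ℕ) : Set (FreeGroup (Gen n)) :=
  FreeGroup.mk '' {L | L ∈ relList rules d₁ d₂ d₃}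

/-- the finitely presented group of a system of rules and a target vector -/
abbrev UU (rules : Fin n → Rule) (d₁ d₂ d₃ : ℕ) := PresentedGroup (rels rules d₁ d₂ d₃)

variable {rules : Fin n → Rule} {d₁ d₂ d₃ : ℕ}

theorem ev_of (R : Set (FreeGroup (Gen n))) (L : List (Gen n × Bool)) :
    ev (PresentedGroup.of (rels := R)) L = PresentedGroup.mk R (FreeGroup.mk L) := by
  have : FreeGroup.lift (PresentedGroup.of (rels := R)) = PresentedGroup.mk R := by
    ext x
    simp [PresentedGroup.of]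
  unfold ev
  rw [this]

theorem RH_of : RH rules d₁ d₂ d₃ (PresentedGroup.of (rels := rels rules d₁ d₂ d₃)) := by
  rw [← rh_iff]
  intro L hL
  rw [ev_of]
  exact PresentedGroup.one_of_mem ⟨L, hL, rfl⟩

/-- the homomorphism from the presented group given by letters satisfying the relations -/
def toW {W : Type*} [Group W] {f : Gen n → W} (h : RH rules d₁ d₂ d₃ f) :
    UU rules d₁ d₂ d₃ →* W :=
  PresentedGroup.toGroup (f := f) (by
    rintro r ⟨L, hL, rfl⟩
    exact (rh_iff f rules d₁ d₂ d₃).2 h L hL)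

theorem toW_of {W : Type*} [Group W] {f : Gen n → W} (h : RH rules d₁ d₂ d₃ f) (x : Gen n) :
    toW h (PresentedGroup.of x) = f x := by
  simp [toW]

theorem toW_mk {W : Type*} [Group W] {f : Gen n → W} (h : RH rules d₁ d₂ d₃ f)
    (L : List (Gen n × Bool)) :
    toW h (PresentedGroup.mk _ (FreeGroup.mk L)) = ev f L := by
  have : (toW h).comp (PresentedGroup.mk (rels rules d₁ d₂ d₃)) = FreeGroup.lift f := by
    ext x
    exact (toW_of h x).trans (by simp)
  exact DFunLike.congr_fun this (FreeGroup.mk L)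

/-- connected to the target: the commutator word is trivial -/
theorem cWord_eq_one {a b c : ℕ} (h : Conn rules ((d₁ : ℤ), (d₂ : ℤ), (d₃ : ℤ))
    ((a : ℤ), (b : ℤ), (c : ℤ))) :
    (PresentedGroup.mk (rels rules d₁ d₂ d₃)) (FreeGroup.mk (cWord a b c)) = 1 := by
  rw [← ev_of, ev_cWord, comm_iff]
  exact (RH_of.conn h).1 RH_of.ctgt

/-- the lattice homomorphism -/
def FF (p q : ℕ) : ℤ × ℤ →+ V3 where
  toFun x := (p * x.1, q * x.2, 0)
  map_zero' := by simp
  map_add' x y := by simp [mul_add]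

theorem FF_injective {p q : ℕ} (hp : p ≠ 0) (hq : q ≠ 0) : Injective (FF p q) := by
  rintro ⟨u, v⟩ ⟨u', v'⟩ h
  have h1 : (p : ℤ) * u = p * u' := congrArg Prod.fst h
  have h2 : (q : ℤ) * v = q * v' := congrArg (fun z : V3 => z.2.1) h
  have hp' : (p : ℤ) ≠ 0 := by exact_mod_cast hp
  have hq' : (q : ℤ) ≠ 0 := by exact_mod_cast hq
  rw [mul_left_cancel₀ hp' h1, mul_left_cancel₀ hq' h2]

theorem xx_zpow {A : Type} [AddCommGroup A] (a : A) (j : ℤ) : (xx a) ^ j = xx (j • a) := by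
  unfold xx
  rw [← map_zpow, ofAdd_zsmul]

/-- the concrete representation of the presented group -/
theorem exists_model (rules : Fin n → Rule) (d₁ d₂ d₃ : ℕ) :
    ∃ (W : Type) (_ : Group W) (f : Gen n → W), RH rules d₁ d₂ d₃ f ∧
      (∀ a b c : ℤ, Xv f a b c = 1 → a = 0 ∧ b = 0 ∧ c = 0) ∧
      ∀ a b c : ℤ, ¬ Conn rules ((d₁ : ℤ), (d₂ : ℤ), (d₃ : ℤ)) (a, b, c) →
        ∀ j : ℤ, j ≠ 0 →
          (f gk * Tv f a b c * (f gk)⁻¹ * (Tv f a b c)⁻¹) ^ j ≠ 1 := by
  let S : Set V3 := {z | Conn rules ((d₁ : ℤ), (d₂ : ℤ), (d₃ : ℤ)) z}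
  obtain ⟨W, inst, ι, p, k, hι, h1, h2, h3, h4', h5⟩ := model (A := V3) (n := n)
    (fun _ => ℤ × ℤ)
    (fun i => (((rules i).a₁ : ℤ), ((rules i).a₂ : ℤ), ((rules i).a₃ : ℤ)))
    (fun i => (((rules i).c₁ : ℤ), ((rules i).c₂ : ℤ), ((rules i).c₃ : ℤ)))
    (fun i => FF (rules i).p₁ (rules i).p₂) (fun i => FF (rules i).q₁ (rules i).q₂)
    (fun i => FF_injective (rules i).hp₁ (rules i).hp₂)
    (fun i => FF_injective (rules i).hq₁ (rules i).hq₂) S
    (by
      intro i b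
      have e1 : ((((rules i).a₁ : ℤ), ((rules i).a₂ : ℤ), ((rules i).a₃ : ℤ)) : V3) +
          FF (rules i).p₁ (rules i).p₂ b = (rules i).lhs b.1 b.2 := by
        simp [FF, Rule.lhs]
      have e2 : ((((rules i).c₁ : ℤ), ((rules i).c₂ : ℤ), ((rules i).c₃ : ℤ)) : V3) +
          FF (rules i).q₁ (rules i).q₂ b = (rules i).rhs b.1 b.2 := by
        simp [FF, Rule.rhs]
      rw [e1, e2]
      constructor
      · intro h
        exact h.trans _ _ _ (Relation.EqvGen.rel _ _ ⟨i, b.1, b.2, rfl, rfl⟩)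
      · intro h
        exact h.trans _ _ _ (Relation.EqvGen.rel _ _ ⟨i, b.1, b.2, rfl, rfl⟩).symm)
  let f : Gen n → W := Sum.elim
    ![ι (xx ((1, 0, 0) : V3)), ι (xx ((0, 1, 0) : V3)), ι (xx ((0, 0, 1) : V3)), ι (tt 0), k] p
  have fx1 : f gx1 = ι (xx ((1, 0, 0) : V3)) := rfl
  have fx2 : f gx2 = ι (xx ((0, 1, 0) : V3)) := rfl
  have fx3 : f gx3 = ι (xx ((0, 0, 1) : V3)) := rfl
  have ft : f gt = ι (tt 0) := rfl
  have fk : f gk = k := rfl
  have fr : ∀ i, f (gr i) = p i := fun i => rfl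
  have hX : ∀ a b c : ℤ, Xv f a b c = ι (xx ((a, b, c) : V3)) := by
    intro a b c
    unfold Xv
    rw [fx1, fx2, fx3, ← map_zpow, ← map_zpow, ← map_zpow, xx_zpow, xx_zpow, xx_zpow,
      ← map_mul, ← map_mul, ← xx_add, ← xx_add]
    simp
  have hT : ∀ a b c : ℤ, Tv f a b c = ι (tt ((a, b, c) : V3)) := by
    intro a b c
    unfold Tv
    rw [hX, ft, ← map_inv, ← map_mul, ← map_mul, xx_conj, add_zero]
  have hxc : ∀ a b : V3, Commute (ι (xx a)) (ι (xx b)) := by
    intro a b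
    change ι (xx a) * ι (xx b) = ι (xx b) * ι (xx a)
    rw [← map_mul, ← map_mul, ← xx_add, ← xx_add, add_comm]
  refine ⟨W, inst, f, ?_, ?_, ?_⟩
  · refine ⟨hxc _ _, hxc _ _, hxc _ _, ?_, ?_, ?_, ?_, ?_⟩
    · rw [hT]
      exact h4' _ (Relation.EqvGen.refl _)
    · intro i
      have h := h2 i ((1, 0) : ℤ × ℤ)
      rw [fr, fx1, ← map_pow, ← map_pow, ← zpow_natCast, ← zpow_natCast, xx_zpow, xx_zpow]
      simpa [SemiconjBy, FF] using h
    · intro i
      have h := h2 i ((0, 1) : ℤ × ℤ)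
      rw [fr, fx2, ← map_pow, ← map_pow, ← zpow_natCast, ← zpow_natCast, xx_zpow, xx_zpow]
      simpa [SemiconjBy, FF] using h
    · intro i
      have h := h1 i 0
      rw [map_zero, map_zero, add_zero, add_zero] at h
      rw [hT, hT, fr]
      exact h
    · intro i
      rw [fk, fr]
      exact h3 i
  · intro a b c h
    rw [hX] at h
    have h' : xx ((a, b, c) : V3) = xx (0 : V3) := by
      apply hι
      rw [h]
      simp [xx]
    have h'' := xx_injective h'
    exact ⟨congrArg Prod.fst h'', congrArg (fun z : V3 => z.2.1) h'',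
      congrArg (fun z : V3 => z.2.2) h''⟩
  · intro a b c h j hj
    rw [hT, fk]
    exact h5 _ h j hj

/-- the commutator word is trivial in the presented group exactly for the vectors connected
to the target -/
theorem cWord_eq_one_iff (a b c : ℕ) :
    (PresentedGroup.mk (rels rules d₁ d₂ d₃)) (FreeGroup.mk (cWord a b c)) = 1 ↔
      Conn rules ((d₁ : ℤ), (d₂ : ℤ), (d₃ : ℤ)) ((a : ℤ), (b : ℤ), (c : ℤ)) := by
  constructor
  · intro h
    by_contra hn
    obtain ⟨W, inst, f, hf, -, h2⟩ := exists_model rules d₁ d₂ d₃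
    refine h2 a b c hn 1 one_ne_zero ?_
    rw [zpow_one, ← ev_cWord, ← toW_mk hf, h, map_one]
  · exact cWord_eq_one

/-- not connected to the target: the commutator word has infinite order -/
theorem cWord_infinite {a b c : ℕ}
    (hn : ¬ Conn rules ((d₁ : ℤ), (d₂ : ℤ), (d₃ : ℤ)) ((a : ℤ), (b : ℤ), (c : ℤ))) (j : ℤ)
    (hj : j ≠ 0) :
    (PresentedGroup.mk (rels rules d₁ d₂ d₃) (FreeGroup.mk (cWord a b c))) ^ j ≠ 1 := by
  obtain ⟨W, inst, f, hf, -, h2⟩ := exists_model rules d₁ d₂ d₃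
  intro h
  refine h2 a b c hn j hj ?_
  rw [← ev_cWord, ← toW_mk hf, ← map_zpow, h, map_one]

/-- the translations `x₁, x₂, x₃` generate a free abelian group of rank three -/
theorem Xv_eq_one {a b c : ℤ}
    (h : Xv (PresentedGroup.of (rels := rels rules d₁ d₂ d₃)) a b c = 1) :
    a = 0 ∧ b = 0 ∧ c = 0 := by
  obtain ⟨W, inst, f, hf, h1, -⟩ := exists_model rules d₁ d₂ d₃
  apply h1
  have h2 := congrArg (toW hf) h
  simpa [Xv, toW_of] using h2

/-- every generator has infinite order -/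
theorem gen_infinite (x : Gen n) (j : ℤ) (hj : j ≠ 0) :
    (PresentedGroup.of (rels := rels rules d₁ d₂ d₃) x) ^ j ≠ 1 := by
  intro h
  -- the homomorphism onto `ℤ` killing the translations
  let f : Gen n → Multiplicative ℤ := Sum.elim
    ![1, 1, 1, Multiplicative.ofAdd 1, Multiplicative.ofAdd 1]
    (fun _ => Multiplicative.ofAdd 1)
  have hf : RH rules d₁ d₂ d₃ f := by
    have h1 : f gx1 = 1 := rfl
    have h2 : f gx2 = 1 := rfl
    have h3 : f gx3 = 1 := rfl
    have hT : ∀ a b c, Tv f a b c = f gt := by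
      intro a b c
      simp [Tv, Xv, h1, h2, h3]
    refine ⟨Commute.all _ _, Commute.all _ _, Commute.all _ _, Commute.all _ _, ?_, ?_, ?_,
      fun i => Commute.all _ _⟩
    · intro i
      rw [h1, one_pow, one_pow]
      exact SemiconjBy.one_right _
    · intro i
      rw [h2, one_pow, one_pow]
      exact SemiconjBy.one_right _
    · intro i
      rw [hT, hT]
      exact Commute.all _ _
  have hz : ∀ y : Gen n, f y = Multiplicative.ofAdd 1 → x = y → False := by
    rintro y hy rfl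
    have h2 := congrArg (toW hf) h
    rw [map_zpow, toW_of, map_one, hy, ← ofAdd_zsmul] at h2
    have h3 : j • (1 : ℤ) = 0 := h2
    simp at h3
    exact hj h3
  have hX : ∀ a b c : ℤ, Xv (PresentedGroup.of (rels := rels rules d₁ d₂ d₃)) a b c = 1 →
      a = 0 ∧ b = 0 ∧ c = 0 := fun a b c => Xv_eq_one
  rcases x with x | x
  · fin_cases x
    · refine hj (hX j 0 0 ?_).1
      simpa [Xv, gx1] using h
    · refine hj (hX 0 j 0 ?_).2.1
      simpa [Xv, gx2] using h
    · refine hj (hX 0 0 j ?_).2.2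
      simpa [Xv, gx3] using h
    · exact hz gt rfl rfl
    · exact hz gk rfl rfl
  · exact hz (gr x) rfl rfl

end NB
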