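import Mathlib
import Pool.Agent.NB.Num
import Pool.Agent.NB.Pres

/-!
# Novikov-Boone, part 8: the affine rules of a Turing machine
-/

namespace NB

open Turing StateTransition

section

variable {Γ : Type} [Fintype Γ] [Inhabited Γ] {Λ : Type}

section encS

variable (S : Finset Λ)

open Classical in
/-- the code of a state -/
noncomputable def enc (q : Λ) : ℕ := if h : q ∈ S then (S.equivFin ⟨q, h⟩ : ℕ) else 0

theorem enc_lt {q : Λ} (h : q ∈ S) : enc S q < S.card := by
  unfold enc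
  rw [dif_pos h]
  exact (S.equivFin ⟨q, h⟩).isLt

theorem enc_inj {q q' : Λ} (h : q ∈ S) (h' : q' ∈ S) (he : enc S q = enc S q') : q = q' := by
  unfold enc at he
  rw [dif_pos h, dif_pos h'] at he
  have h1 := S.equivFin.injective (Fin.ext he)
  exact congrArg Subtype.val h1

end encS

variable [Inhabited Λ] (M : TM0.Machine Γ Λ) (S : Finset Λ)

/-- the index type of the rules -/
abbrev RI := ({q // q ∈ S} × Γ × Γ) ⊕ (Γ ⊕ Γ)

theorem bs_ne : (bs Γ) ≠ 0 := (bs_pos (Γ := Γ)).ne'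

/-- the rule for state `q`, symbol `a` (and left neighbour `b`, only for moves to the left) -/
noncomputable def stepRule (q : Λ) (a b : Γ) : Rule :=
  match M q a with
  | none => ⟨0, 1, dig a, bs Γ, enc S q, 0, 1, dig a, bs Γ, S.card, one_ne_zero, bs_ne,
      one_ne_zero, bs_ne⟩
  | some (q', TM0.Stmt.write c) =>
      ⟨0, 1, dig a, bs Γ, enc S q, 0, 1, dig c, bs Γ, enc S q', one_ne_zero, bs_ne,
        one_ne_zero, bs_ne⟩
  | some (q', TM0.Stmt.move Dir.right) =>
      ⟨0, 1, dig a, bs Γ, enc S q, dig a, bs Γ, 0, 1, enc S q', one_ne_zero, bs_ne,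
        bs_ne, one_ne_zero⟩
  | some (q', TM0.Stmt.move Dir.left) =>
      ⟨dig b, bs Γ, dig a, bs Γ, enc S q, 0, 1, dig b + bs Γ * dig a, bs Γ * bs Γ, enc S q',
        bs_ne, bs_ne, one_ne_zero, mul_ne_zero bs_ne bs_ne⟩

/-- all rules -/
noncomputable def theRule : RI S (Γ := Γ) → Rule
  | Sum.inl (q, a, b) => stepRule M S q a b
  | Sum.inr (Sum.inl a) => ⟨dig a, bs Γ, 0, 1, S.card, 0, 1, 0, 1, S.card, bs_ne, one_ne_zero,
      one_ne_zero, one_ne_zero⟩
  | Sum.inr (Sum.inr a) => ⟨0, 1, dig a, bs Γ, S.card, 0, 1, 0, 1, S.card, one_ne_zero, bs_ne,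
      one_ne_zero, one_ne_zero⟩

/-- the configurations which will count as connected to the target -/
def Tn (l r s : ℕ) : Prop :=
  (∃ q ∈ S, s = enc S q ∧ (eval (nstep M) ((l, r), q)).Dom) ∨ s = S.card

theorem Tn_enc {l r : ℕ} {q : Λ} (hq : q ∈ S) :
    Tn M S l r (enc S q) ↔ (eval (nstep M) ((l, r), q)).Dom := by
  constructor
  · rintro (⟨q', hq', he, hd⟩ | h)
    · rw [enc_inj S hq hq' he]
      exact hd
    · exact absurd h (enc_lt S hq).ne
  · intro h
    exact Or.inl ⟨q, hq, rfl, h⟩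

theorem Tn_card {l r : ℕ} : Tn M S l r S.card := Or.inr rfl

theorem dom_step {c c' : (ℕ × ℕ) × Λ} (h : nstep M c = some c') :
    (eval (nstep M) c).Dom ↔ (eval (nstep M) c').Dom := by
  rw [reaches_eval (Relation.ReflTransGen.single (show c' ∈ nstep M c from h))]

theorem dom_halt {c : (ℕ × ℕ) × Λ} (h : nstep M c = none) : (eval (nstep M) c).Dom := by
  have : c ∈ eval (nstep M) c := mem_eval.2 ⟨Relation.ReflTransGen.refl, h⟩
  exact Part.dom_iff_mem.2 ⟨c, this⟩

theorem nstep_eq (l r : ℕ) (q : Λ) (a : Γ) (v : ℕ) (hr : r = dig a + bs Γ * v) :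
    nstep M ((l, r), q) = (M q a).map (fun p => (nact l r p.2, p.1)) := by
  have : r % bs Γ = dig a := by
    rw [hr, Nat.add_mul_mod_self_left, Nat.mod_eq_of_lt (dig_lt _)]
  simp only [nstep, this, sym_dig]

/-- the rules preserve the set, on natural numbers -/
theorem Tn_rule (hS : TM0.Supports M (S : Set Λ)) (j : RI S (Γ := Γ)) (u v : ℕ) :
    Tn M S ((theRule M S j).a₁ + (theRule M S j).p₁ * u)
      ((theRule M S j).a₂ + (theRule M S j).p₂ * v) (theRule M S j).a₃ ↔
    Tn M S ((theRule M S j).c₁ + (theRule M S j).q₁ * u)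
      ((theRule M S j).c₂ + (theRule M S j).q₂ * v) (theRule M S j).c₃ := by
  rcases j with ⟨⟨q, hq⟩, a, b⟩ | a | a
  · simp only [theRule, stepRule]
    rcases hM : M q a with _ | ⟨q', (_ | _) | c⟩
    · -- halting
      simp only [Tn_enc M S hq]
      have h : nstep M ((0 + 1 * u, dig a + bs Γ * v), q) = none := by
        rw [nstep_eq M _ _ q a v rfl, hM]
        rfl
      exact ⟨fun _ => Tn_card M S, fun _ => dom_halt M h⟩
    · -- move left
      have hq' : q' ∈ S := hS.2 (show (q', TM0.Stmt.move Dir.left) ∈ M q a from hM) hq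
      simp only [Tn_enc M S hq, Tn_enc M S hq']
      have h : nstep M ((dig b + bs Γ * u, dig a + bs Γ * v), q) =
          some ((0 + 1 * u, dig b + bs Γ * dig a + bs Γ * bs Γ * v), q') := by
        rw [nstep_eq M _ _ q a v rfl, hM]
        simp only [Option.map_some, nact]
        congr 3
        · rw [Nat.add_mul_div_left _ _ bs_pos, Nat.div_eq_of_lt (dig_lt _)]
          ring
        · rw [Nat.add_mul_mod_self_left, Nat.mod_eq_of_lt (dig_lt _)]
          ring
      exact dom_step M h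
    · -- move right
      have hq' : q' ∈ S := hS.2 (show (q', TM0.Stmt.move Dir.right) ∈ M q a from hM) hq
      simp only [Tn_enc M S hq, Tn_enc M S hq']
      have h : nstep M ((0 + 1 * u, dig a + bs Γ * v), q) =
          some ((dig a + bs Γ * u, 0 + 1 * v), q') := by
        rw [nstep_eq M _ _ q a v rfl, hM]
        simp only [Option.map_some, nact]
        congr 3
        · rw [Nat.add_mul_mod_self_left, Nat.mod_eq_of_lt (dig_lt _)]
          ring
        · rw [Nat.add_mul_div_left _ _ bs_pos, Nat.div_eq_of_lt (dig_lt _)]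
          ring
      exact dom_step M h
    · -- write
      have hq' : q' ∈ S := hS.2 (show (q', TM0.Stmt.write c) ∈ M q a from hM) hq
      simp only [Tn_enc M S hq, Tn_enc M S hq']
      have h : nstep M ((0 + 1 * u, dig a + bs Γ * v), q) =
          some ((0 + 1 * u, dig c + bs Γ * v), q') := by
        rw [nstep_eq M _ _ q a v rfl, hM]
        simp only [Option.map_some, nact]
        congr 3
        rw [Nat.add_mul_div_left _ _ bs_pos, Nat.div_eq_of_lt (dig_lt _)]
        ring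
      exact dom_step M h
  · simp only [theRule]
    exact ⟨fun _ => Tn_card M S, fun _ => Tn_card M S⟩
  · simp only [theRule]
    exact ⟨fun _ => Tn_card M S, fun _ => Tn_card M S⟩

/-- the bounds on the constants of the rules -/
theorem theRule_bounds (j : RI S (Γ := Γ)) :
    (theRule M S j).a₁ < (theRule M S j).p₁ ∧ (theRule M S j).a₂ < (theRule M S j).p₂ ∧
    (theRule M S j).c₁ < (theRule M S j).q₁ ∧ (theRule M S j).c₂ < (theRule M S j).q₂ := by
  have hb : ∀ a b : Γ, dig b + bs Γ * dig a < bs Γ * bs Γ := by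
    intro a b
    have h1 := dig_lt a
    have h2 := dig_lt b
    nlinarith
  rcases j with ⟨⟨q, hq⟩, a, b⟩ | a | a
  · simp only [theRule, stepRule]
    rcases hM : M q a with _ | ⟨q', (_ | _) | c⟩ <;> simp [dig_lt, hb]
  · simp [theRule, dig_lt]
  · simp [theRule, dig_lt]

theorem neg_of {a p : ℕ} (h : a < p) {u : ℤ} (hu : u < 0) : (a : ℤ) + p * u < 0 := by
  have h1 : (a : ℤ) < p := by exact_mod_cast h
  nlinarith

/-- the set on `ℤ³` -/
def TZ : Set V3 := {z | ∃ l r s : ℕ, z = ((l : ℤ), (r : ℤ), (s : ℤ)) ∧ Tn M S l r s}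

theorem TZ_iff (l r s : ℕ) : (((l : ℤ), (r : ℤ), (s : ℤ)) : V3) ∈ TZ M S ↔ Tn M S l r s := by
  constructor
  · rintro ⟨l', r', s', he, h⟩
    have h1 : (l : ℤ) = l' := congrArg Prod.fst he
    have h2 : (r : ℤ) = r' := congrArg (fun z : V3 => z.2.1) he
    have h3 : (s : ℤ) = s' := congrArg (fun z : V3 => z.2.2) he
    have e1 : l = l' := by exact_mod_cast h1
    have e2 : r = r' := by exact_mod_cast h2
    have e3 : s = s' := by exact_mod_cast h3
    rw [e1, e2, e3]
    exact h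
  · intro h
    exact ⟨l, r, s, rfl, h⟩

theorem TZ_nonneg {z : V3} (hz : z ∈ TZ M S) : 0 ≤ z.1 ∧ 0 ≤ z.2.1 := by
  obtain ⟨l, r, s, rfl, -⟩ := hz
  exact ⟨Int.natCast_nonneg l, Int.natCast_nonneg r⟩

theorem TZ_rule (hS : TM0.Supports M (S : Set Λ)) (j : RI S (Γ := Γ)) (u v : ℤ) :
    (theRule M S j).lhs u v ∈ TZ M S ↔ (theRule M S j).rhs u v ∈ TZ M S := by
  obtain ⟨b1, b2, b3, b4⟩ := theRule_bounds M S j
  by_cases hu : u < 0
  · constructor
    · intro h
      exact absurd (TZ_nonneg M S h).1 (not_le.2 (neg_of b1 hu))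
    · intro h
      exact absurd (TZ_nonneg M S h).1 (not_le.2 (neg_of b3 hu))
  by_cases hv : v < 0
  · constructor
    · intro h
      exact absurd (TZ_nonneg M S h).2 (not_le.2 (neg_of b2 hv))
    · intro h
      exact absurd (TZ_nonneg M S h).2 (not_le.2 (neg_of b4 hv))
  obtain ⟨u', rfl⟩ := Int.eq_ofNat_of_zero_le (not_lt.1 hu)
  obtain ⟨v', rfl⟩ := Int.eq_ofNat_of_zero_le (not_lt.1 hv)
  have e1 : (theRule M S j).lhs u' v' =
      ((((theRule M S j).a₁ + (theRule M S j).p₁ * u' : ℕ) : ℤ),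
        (((theRule M S j).a₂ + (theRule M S j).p₂ * v' : ℕ) : ℤ),
        (((theRule M S j).a₃ : ℕ) : ℤ)) := by
    simp [Rule.lhs]
  have e2 : (theRule M S j).rhs u' v' =
      ((((theRule M S j).c₁ + (theRule M S j).q₁ * u' : ℕ) : ℤ),
        (((theRule M S j).c₂ + (theRule M S j).q₂ * v' : ℕ) : ℤ),
        (((theRule M S j).c₃ : ℕ) : ℤ)) := by
    simp [Rule.rhs]
  rw [e1, e2, TZ_iff, TZ_iff]
  exact Tn_rule M S hS j u' v'

/-- the number of rules -/
noncomputable def nR : ℕ := Fintype.card (RI S (Γ := Γ))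

/-- the rules, indexed by `Fin` -/
noncomputable def mrules : Fin (nR (Γ := Γ) S) → Rule :=
  fun i => theRule M S ((Fintype.equivFin (RI S (Γ := Γ))).symm i)

/-- the target -/
abbrev tgt : V3 := ((0 : ℕ), (0 : ℕ), (S.card : ℕ))

theorem conn_mem (hS : TM0.Supports M (S : Set Λ)) {x y : V3}
    (h : Conn (mrules M S) x y) : x ∈ TZ M S ↔ y ∈ TZ M S := by
  induction h with
  | rel x y hxy =>
    obtain ⟨i, u, v, rfl, rfl⟩ := hxy
    exact TZ_rule M S hS _ u v
  | refl => exact Iff.rfl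
  | symm _ _ _ ih => exact ih.symm
  | trans _ _ _ _ _ ih1 ih2 => exact ih1.trans ih2

theorem conn_rule (j : RI S (Γ := Γ)) (u v : ℕ) :
    Conn (mrules M S)
      ((((theRule M S j).a₁ + (theRule M S j).p₁ * u : ℕ) : ℤ),
        (((theRule M S j).a₂ + (theRule M S j).p₂ * v : ℕ) : ℤ),
        (((theRule M S j).a₃ : ℕ) : ℤ))
      ((((theRule M S j).c₁ + (theRule M S j).q₁ * u : ℕ) : ℤ),
        (((theRule M S j).c₂ + (theRule M S j).q₂ * v : ℕ) : ℤ),
        (((theRule M S j).c₃ : ℕ) : ℤ)) := by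
  refine Relation.EqvGen.rel _ _ ⟨Fintype.equivFin (RI S (Γ := Γ)) j, u, v, ?_, ?_⟩
  · simp [mrules, Rule.lhs]
  · simp [mrules, Rule.rhs]

theorem conn_erase (h2 : 1 < bs Γ) (l r : ℕ) :
    Conn (mrules M S) ((l : ℤ), (r : ℤ), ((S.card : ℕ) : ℤ)) (tgt S) := by
  have hL : ∀ l r : ℕ, Conn (mrules M S) ((l : ℤ), (r : ℤ), ((S.card : ℕ) : ℤ))
      ((0 : ℕ), (r : ℤ), ((S.card : ℕ) : ℤ)) := by
    intro l
    induction l using Nat.strong_induction_on with
    | _ l ih =>
      intro r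
      rcases Nat.eq_zero_or_pos l with rfl | hl
      · exact Relation.EqvGen.refl _
      · have h1 := conn_rule M S (Sum.inr (Sum.inl (sym Γ (l % bs Γ)))) (l / bs Γ) r
        simp only [theRule, dig_sym (Nat.mod_lt l bs_pos), Nat.mod_add_div, one_mul,
          zero_add] at h1
        exact h1.trans _ _ _ (ih (l / bs Γ) (Nat.div_lt_self hl h2) r)
  have hR : ∀ r : ℕ, Conn (mrules M S) (((0 : ℕ) : ℤ), (r : ℤ), ((S.card : ℕ) : ℤ))
      (tgt S) := by
    intro r
    induction r using Nat.strong_induction_on with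
    | _ r ih =>
      rcases Nat.eq_zero_or_pos r with rfl | hr
      · exact Relation.EqvGen.refl _
      · have h1 := conn_rule M S (Sum.inr (Sum.inr (sym Γ (r % bs Γ)))) 0 (r / bs Γ)
        simp only [theRule, dig_sym (Nat.mod_lt r bs_pos), Nat.mod_add_div, one_mul,
          zero_add] at h1
        exact h1.trans _ _ _ (ih (r / bs Γ) (Nat.div_lt_self hr h2))
  exact (hL l r).trans _ _ _ (hR r)

theorem conn_step (hS : TM0.Supports M (S : Set Λ)) {l r l' r' : ℕ} {q q' : Λ} (hq : q ∈ S)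
    (h : nstep M ((l, r), q) = some ((l', r'), q')) :
    q' ∈ S ∧ Conn (mrules M S) ((l : ℤ), (r : ℤ), ((enc S q : ℕ) : ℤ))
      ((l' : ℤ), (r' : ℤ), ((enc S q' : ℕ) : ℤ)) := by
  have hr : dig (sym Γ (r % bs Γ)) + bs Γ * (r / bs Γ) = r := by
    rw [dig_sym (Nat.mod_lt r bs_pos), Nat.mod_add_div]
  have hl : dig (sym Γ (l % bs Γ)) + bs Γ * (l / bs Γ) = l := by
    rw [dig_sym (Nat.mod_lt l bs_pos), Nat.mod_add_div]
  have hlm := Nat.mod_lt l (bs_pos (Γ := Γ))
  have hrm := Nat.mod_lt r (bs_pos (Γ := Γ))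
  simp only [nstep] at h
  rcases hM : M q (sym Γ (r % bs Γ)) with _ | ⟨q1, s⟩
  · rw [hM] at h
    cases h
  · rw [hM] at h
    simp only [Option.map_some, Option.some.injEq, Prod.mk.injEq] at h
    obtain ⟨hn, rfl⟩ := h
    have hq' : q1 ∈ S := hS.2 (show (q1, s) ∈ M q (sym Γ (r % bs Γ)) from hM) hq
    refine ⟨hq', ?_⟩
    rcases s with (_ | _) | c
    · -- left
      have h1 := conn_rule M S (Sum.inl (⟨q, hq⟩, sym Γ (r % bs Γ), sym Γ (l % bs Γ)))
        (l / bs Γ) (r / bs Γ)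
      simp only [theRule, stepRule, hM, hl, hr] at h1
      simp only [nact, Prod.mk.injEq] at hn
      obtain ⟨rfl, rfl⟩ := hn
      have e1 : 0 + 1 * (l / bs Γ) = l / bs Γ := by ring
      have e2 : dig (sym Γ (l % bs Γ)) + bs Γ * dig (sym Γ (r % bs Γ)) +
          bs Γ * bs Γ * (r / bs Γ) = l % bs Γ + bs Γ * r := by
        rw [dig_sym hlm, dig_sym hrm]
        conv_rhs => rw [← Nat.mod_add_div r (bs Γ)]
        ring
      rw [e1, e2] at h1
      exact h1
    · -- right
      have h1 := conn_rule M S (Sum.inl (⟨q, hq⟩, sym Γ (r % bs Γ), default))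
        l (r / bs Γ)
      simp only [theRule, stepRule, hM, hr, zero_add, one_mul] at h1
      simp only [nact, Prod.mk.injEq] at hn
      obtain ⟨rfl, rfl⟩ := hn
      rw [dig_sym hrm] at h1
      exact h1
    · -- write
      have h1 := conn_rule M S (Sum.inl (⟨q, hq⟩, sym Γ (r % bs Γ), default))
        l (r / bs Γ)
      simp only [theRule, stepRule, hM, hr, zero_add, one_mul] at h1
      simp only [nact, Prod.mk.injEq] at hn
      obtain ⟨rfl, rfl⟩ := hn
      exact h1

theorem conn_halt {l r : ℕ} {q : Λ} (hq : q ∈ S) (h2 : 1 < bs Γ)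
    (h : nstep M ((l, r), q) = none) :
    Conn (mrules M S) ((l : ℤ), (r : ℤ), ((enc S q : ℕ) : ℤ)) (tgt S) := by
  have hr : dig (sym Γ (r % bs Γ)) + bs Γ * (r / bs Γ) = r := by
    rw [dig_sym (Nat.mod_lt r bs_pos), Nat.mod_add_div]
  simp only [nstep, Option.map_eq_none_iff] at h
  have h1 := conn_rule M S (Sum.inl (⟨q, hq⟩, sym Γ (r % bs Γ), default)) l (r / bs Γ)
  simp only [theRule, stepRule, h, hr, zero_add, one_mul] at h1
  exact h1.trans _ _ _ (conn_erase M S h2 l r)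

theorem conn_of_dom (hS : TM0.Supports M (S : Set Λ)) (h2 : 1 < bs Γ) {l r : ℕ} {q : Λ}
    (hq : q ∈ S) (h : (eval (nstep M) ((l, r), q)).Dom) :
    Conn (mrules M S) ((l : ℤ), (r : ℤ), ((enc S q : ℕ) : ℤ)) (tgt S) := by
  obtain ⟨c, hc⟩ := Part.dom_iff_mem.1 h
  obtain ⟨h3, h4⟩ := mem_eval.1 hc
  have key : ∀ d, Reaches (nstep M) d c → d.2 ∈ S →
      Conn (mrules M S) ((d.1.1 : ℤ), (d.1.2 : ℤ), ((enc S d.2 : ℕ) : ℤ)) (tgt S) := by
    intro d hd
    induction hd using Relation.ReflTransGen.head_induction_on with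
    | refl =>
      intro hd
      exact conn_halt M S hd h2 h4
    | @head a b hab hbc ih =>
      intro ha
      obtain ⟨⟨l1, r1⟩, q1⟩ := a
      obtain ⟨⟨l2, r2⟩, q2⟩ := b
      obtain ⟨h5, h6⟩ := conn_step M S hS ha hab
      exact h6.trans _ _ _ (ih h5)
  exact key _ h3 hq

/-- **The halting problem of the machine as a connectivity problem for affine rules.** -/
theorem conn_iff_dom (hS : TM0.Supports M (S : Set Λ)) (h2 : 1 < bs Γ) (l r : ℕ) {q : Λ}
    (hq : q ∈ S) :
    Conn (mrules M S) (((0 : ℕ) : ℤ), ((0 : ℕ) : ℤ), ((S.card : ℕ) : ℤ))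
      ((l : ℤ), (r : ℤ), ((enc S q : ℕ) : ℤ)) ↔ (eval (nstep M) ((l, r), q)).Dom := by
  constructor
  · intro h
    have h1 := (conn_mem M S hS h).1 ((TZ_iff M S 0 0 S.card).2 (Tn_card M S))
    rw [TZ_iff, Tn_enc M S hq] at h1
    exact h1
  · intro h
    exact (conn_of_dom M S hS h2 hq h).symm

end

end NB
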