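import Mathlib
import Pool.Agent.NB.Num

/-!
# Novikov-Boone, part 9: a Turing machine with undecidable halting problem
-/

namespace NB

open Turing Nat.Partrec

/-- the partial recursive function whose domain is a halting set -/
def hf (n : ℕ) : Part ℕ := Nat.Partrec.Code.eval (Denumerable.ofNat Nat.Partrec.Code n) 0

theorem hf_partrec : Partrec hf :=
  Nat.Partrec.Code.eval_part.comp (Computable.ofNat Nat.Partrec.Code) (Computable.const 0)

theorem hf_not_computable : ¬ ComputablePred (fun n => (hf n).Dom) := by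
  rintro ⟨inst, h⟩
  refine ComputablePred.halting_problem 0 ?_
  refine ComputablePred.of_eq (p := fun c : Nat.Partrec.Code => (hf (Encodable.encode c)).Dom)
    ⟨fun c => inst (Encodable.encode c), ?_⟩ ?_
  · exact h.comp Computable.encode
  · intro c
    simp [hf]

theorem exists_hcode : ∃ c : ToPartrec.Code, ∀ n, (c.eval [n]).Dom ↔ (hf n).Dom := by
  obtain ⟨c, hc⟩ := ToPartrec.Code.exists_code (Nat.Partrec'.part_iff₁.2 hf_partrec)
  refine ⟨c, fun n => ?_⟩
  have h := hc ⟨[n], rfl⟩
  change c.eval [n] = _ at h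
  rw [h]
  rfl

/-- a letter of the stack alphabet of a bit -/
def bitS (b : Bool) : PartrecToTM2.Γ' := cond b PartrecToTM2.Γ'.bit1 PartrecToTM2.Γ'.bit0

theorem trNum_bit1 (n : Num) : PartrecToTM2.trNum (Num.bit1 n) =
    PartrecToTM2.Γ'.bit1 :: PartrecToTM2.trNum n := by
  cases n <;> rfl

theorem trNum_bit0 (n : Num) (h : n ≠ 0) : PartrecToTM2.trNum (Num.bit0 n) =
    PartrecToTM2.Γ'.bit0 :: PartrecToTM2.trNum n := by
  cases n
  · exact absurd rfl h
  · rfl

theorem trNat_bits (n : ℕ) : PartrecToTM2.trNat n = n.bits.map bitS := by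
  induction n using Nat.binaryRec' with
  | zero => simp
  | bit b n hn ih =>
    rw [Nat.bits_append_bit n b hn, List.map_cons, ← ih]
    unfold PartrecToTM2.trNat
    rw [← Num.ofNat'_eq, ← Num.ofNat'_eq, Num.ofNat'_bit]
    cases b
    · have h0 : Num.ofNat' n ≠ 0 := by
        intro h
        rw [Num.ofNat'_eq] at h
        have : n = 0 := by exact_mod_cast h
        exact absurd (hn this) (by simp)
      exact trNum_bit0 _ h0
    · exact trNum_bit1 _

/-- the tape alphabet -/
abbrev GG := TM2to1.Γ' PartrecToTM2.K' (fun _ => PartrecToTM2.Γ')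

/-- the tape letter of a stack letter -/
def tl (a : PartrecToTM2.Γ') : GG :=
  (false, Function.update (fun _ => none) PartrecToTM2.K'.main (some a))

/-- the first tape letter -/
def hl : GG := ((true, (tl PartrecToTM2.Γ'.cons).2) : Bool × (PartrecToTM2.K' → Option PartrecToTM2.Γ'))

/-- the input list -/
def inp (n : ℕ) : List GG := hl :: (n.bits.reverse.map (fun b => cond b (tl (bitS true)) (tl (bitS false))))

theorem trInit_eq (L L' : List PartrecToTM2.Γ') (h : L.reverse = PartrecToTM2.Γ'.cons :: L') :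
    TM2to1.trInit (Γ := fun _ => PartrecToTM2.Γ') PartrecToTM2.K'.main L = hl :: L'.map tl := by
  have h1 : TM2to1.trInit (Γ := fun _ => PartrecToTM2.Γ') PartrecToTM2.K'.main L =
      (((true, (L.reverse.map tl).headI.2) : Bool × (PartrecToTM2.K' → Option PartrecToTM2.Γ')) :
        GG) :: (L.reverse.map tl).tail := rfl
  rw [h1, h]
  rfl

theorem inp_eq (n : ℕ) :
    TM2to1.trInit (Γ := fun _ => PartrecToTM2.Γ') PartrecToTM2.K'.main
      (PartrecToTM2.trList [n]) = inp n := by
  have h1 : (PartrecToTM2.trList [n]).reverse =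
      PartrecToTM2.Γ'.cons :: (n.bits.reverse.map bitS) := by
    simp [PartrecToTM2.trList, trNat_bits]
  rw [trInit_eq _ _ h1, List.map_map]
  unfold inp
  congr 2
  funext b
  cases b <;> rfl

instance : Fintype PartrecToTM2.K' :=
  ⟨{PartrecToTM2.K'.main, PartrecToTM2.K'.rev, PartrecToTM2.K'.aux, PartrecToTM2.K'.stack},
    fun x => by cases x <;> simp⟩

/-- **A Turing machine (model `TM0`) with finite support and undecidable halting problem.** -/
theorem exists_TM : ∃ (Γ Λ : Type) (_ : Fintype Γ) (_ : Inhabited Γ) (_ : Inhabited Λ)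
    (M : TM0.Machine Γ Λ) (S : Finset Λ) (d₀ d₁ d₂ : Γ), TM0.Supports M (S : Set Λ) ∧
      1 < Fintype.card Γ ∧
      ∀ n : ℕ, (TM0.eval M (d₀ :: n.bits.reverse.map (fun b => cond b d₁ d₂))).Dom ↔
        (hf n).Dom := by
  obtain ⟨c, hc⟩ := exists_hcode
  let i1 : Inhabited PartrecToTM2.Λ' := ⟨PartrecToTM2.trNormal c PartrecToTM2.Cont'.halt⟩
  let M1 := TM2to1.tr PartrecToTM2.tr
  let M0 := TM1to0.tr M1
  have s2 : TM2.Supports PartrecToTM2.tr (PartrecToTM2.codeSupp c PartrecToTM2.Cont'.halt) :=
    PartrecToTM2.tr_supports c PartrecToTM2.Cont'.halt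
  have s1 := TM2to1.tr_supports PartrecToTM2.tr s2
  have s0 := TM1to0.tr_supports M1 s1
  refine ⟨GG, _, inferInstance, inferInstance, inferInstance, M0, _, hl, tl (bitS true),
    tl (bitS false), s0, ?_, ?_⟩
  · rw [Fintype.one_lt_card_iff]
    refine ⟨hl, default, ?_⟩
    intro h
    exact absurd (congrArg Prod.fst h) (by decide)
  · intro n
    have e1 : (hl :: n.bits.reverse.map (fun b => cond b (tl (bitS true)) (tl (bitS false)))) =
        inp n := rfl
    rw [e1, ← inp_eq, TM1to0.tr_eval]
    have e0 := TM2to1.tr_eval_dom PartrecToTM2.tr PartrecToTM2.K'.main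
      (PartrecToTM2.trList [n])
    refine e0.trans ?_
    rw [← hc n]
    have e2 : (TM2.init PartrecToTM2.K'.main (PartrecToTM2.trList [n]) :
        TM2.Cfg (fun _ : PartrecToTM2.K' => PartrecToTM2.Γ') PartrecToTM2.Λ'
          (Option PartrecToTM2.Γ')) = PartrecToTM2.init c [n] := by
      unfold TM2.init PartrecToTM2.init
      congr 1
      funext k
      cases k <;> rfl
    have e3 := PartrecToTM2.tr_eval c [n]
    rw [← e2] at e3
    unfold TM2.eval
    rw [e3]
    rfl

end NB
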