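import Mathlib
import Pool.Agent.NB.Mach
import Pool.Agent.NB.Univ
import Pool.Agent.NB.Fam

/-!
# Novikov-Boone, part 10: the main theorems
-/

namespace NB

open Turing

theorem bits_eq {n : ℕ} (hn : n ≠ 0) : n.bits = n.bodd :: n.div2.bits := by
  have h := Nat.bits_append_bit n.div2 n.bodd (by
    intro h0
    by_contra hb
    have h1 := Nat.bit_bodd_div2 n
    rw [h0] at h1
    have hb' : n.bodd = false := by simpa using hb
    rw [hb'] at h1
    exact hn (by simpa using h1.symm))
  rwa [Nat.bit_bodd_div2] at h

theorem primrec_bits : Primrec Nat.bits := by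
  have h : Primrec₂ (fun (_ : Unit) (n : ℕ) => n.bits) := by
    refine Primrec.nat_strong_rec _
      (g := fun _ l => if l.length = 0 then some [] else
        (l[l.length.div2]?).map (fun r => l.length.bodd :: r)) ?_ ?_
    · refine Primrec.ite ?_ (Primrec.const _) ?_
      · exact Primrec.eq.comp (Primrec.list_length.comp Primrec.snd) (Primrec.const 0)
      · refine Primrec.option_map ?_ ?_
        · exact Primrec.list_getElem?.comp Primrec.snd
            (Primrec.nat_div2.comp (Primrec.list_length.comp Primrec.snd))
        · exact Primrec.list_cons.comp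
            (Primrec.nat_bodd.comp (Primrec.list_length.comp
              (Primrec.snd.comp Primrec.fst))) Primrec.snd
    · intro _ n
      simp only [List.length_map, List.length_range]
      by_cases hn : n = 0
      · subst hn
        simp
      · rw [if_neg hn]
        have h1 : n.div2 < n := by
          rw [Nat.div2_val]
          omega
        rw [List.getElem?_map, List.getElem?_range h1]
        simp [← bits_eq hn]
  exact h.comp (Primrec.const ()) Primrec.id

theorem primrec_replicate {α : Type} [Primcodable α] (x : α) :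
    Primrec (fun n : ℕ => List.replicate n x) := by
  have h : Primrec (fun n : ℕ => (List.range n).map (fun _ => x)) :=
    Primrec.list_map Primrec.list_range (Primrec.const x).to₂
  refine h.of_eq ?_
  intro n
  simp

theorem primrec_tWord {m : ℕ} (s : Bool) (c : ℕ) :
    Primrec (fun N : ℕ => (tWord s 0 N c : List (Gen m × Bool))) := by
  unfold tWord
  refine Primrec.list_append.comp (Primrec.const _) ?_
  refine Primrec.list_append.comp (primrec_replicate _) ?_
  refine Primrec.list_append.comp (Primrec.const _) ?_
  refine Primrec.list_append.comp (Primrec.const _) ?_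
  refine Primrec.list_append.comp (Primrec.const _) ?_
  refine Primrec.list_append.comp (primrec_replicate _) (Primrec.const _)

theorem primrec_cWord {m : ℕ} (c : ℕ) :
    Primrec (fun N : ℕ => (cWord 0 N c : List (Gen m × Bool))) := by
  unfold cWord
  refine Primrec.list_append.comp (Primrec.const _) ?_
  refine Primrec.list_append.comp (primrec_tWord _ _) ?_
  refine Primrec.list_append.comp (Primrec.const _) (primrec_tWord _ _)

theorem primrec_num {Γ : Type} [Fintype Γ] [Inhabited Γ] (d₀ d₁ d₂ : Γ) :
    Primrec (fun n : ℕ => num (d₀ :: n.bits.reverse.map (fun b => cond b d₁ d₂))) := by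
  have h : ∀ L : List Bool, num (L.map (fun b => cond b d₁ d₂)) =
      L.foldr (fun b s => (cond b (dig d₁) (dig d₂)) + bs Γ * s) 0 := by
    intro L
    induction L with
    | nil => rfl
    | cons b L ih =>
      rw [List.map_cons, num_cons, ih, List.foldr_cons]
      cases b <;> rfl
  have h1 : Primrec (fun n : ℕ => dig d₀ + bs Γ *
      (n.bits.reverse).foldr (fun b s => (cond b (dig d₁) (dig d₂)) + bs Γ * s) 0) := by
    refine Primrec.nat_add.comp (Primrec.const _) ?_
    refine Primrec.nat_mul.comp (Primrec.const _) ?_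
    refine Primrec.list_foldr (h := fun _ p => (cond p.1 (dig d₁) (dig d₂)) + bs Γ * p.2)
      (Primrec.list_reverse.comp primrec_bits) (Primrec.const 0) ?_
    refine Primrec.nat_add.comp ?_ ?_
    · exact Primrec.cond (Primrec.fst.comp Primrec.snd) (Primrec.const _) (Primrec.const _)
    · exact Primrec.nat_mul.comp (Primrec.const _) (Primrec.snd.comp Primrec.snd)
  refine h1.of_eq ?_
  intro n
  rw [num_cons, h]

/-- **Novikov-Boone with a dichotomy.**  A finite presentation whose generators have infinite
order, with a primitive recursive sequence of words: `w n` is trivial if the `n`-th program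
halts, and has infinite order if it does not. -/
theorem novikov_boone : ∃ (m : ℕ) (R : List (List (Gen m × Bool)))
    (w : ℕ → List (Gen m × Bool)), Primrec w ∧
    (∀ n, (hf n).Dom → PresentedGroup.mk (relSet R) (FreeGroup.mk (w n)) = 1) ∧
    (∀ n, ¬ (hf n).Dom → ∀ j : ℤ, j ≠ 0 →
      (PresentedGroup.mk (relSet R) (FreeGroup.mk (w n))) ^ j ≠ 1) ∧
    (∀ (z : Gen m) (j : ℤ), j ≠ 0 → (PresentedGroup.of z : Pr R) ^ j ≠ 1) ∧
    Commute (PresentedGroup.of gx1 : Pr R) (PresentedGroup.of gx2) ∧
    ∀ i j : ℤ, (PresentedGroup.of gx1 : Pr R) ^ i * (PresentedGroup.of gx2) ^ j = 1 →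
      i = 0 ∧ j = 0 := by
  obtain ⟨Γ, Λ, i1, i2, i3, M, S, d₀, d₁, d₂, hS, h2, hM⟩ := exists_TM
  let N : ℕ → ℕ := fun n => num (d₀ :: n.bits.reverse.map (fun b => cond b d₁ d₂))
  have key : ∀ n, Conn (mrules M S) (((0 : ℕ) : ℤ), ((0 : ℕ) : ℤ), ((S.card : ℕ) : ℤ))
      (((0 : ℕ) : ℤ), ((N n : ℕ) : ℤ), ((enc S (default : Λ) : ℕ) : ℤ)) ↔ (hf n).Dom := by
    intro n
    rw [conn_iff_dom M S hS h2 0 (N n) hS.1, ← hM n, ← nstep_dom_init]
  refine ⟨nR (Γ := Γ) S, relList (mrules M S) 0 0 S.card,
    fun n => cWord 0 (N n) (enc S (default : Λ)), ?_, ?_, ?_, ?_, ?_, ?_⟩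
  · exact (primrec_cWord _).comp (primrec_num d₀ d₁ d₂)
  · intro n hn
    exact cWord_eq_one ((key n).2 hn)
  · intro n hn j hj
    exact cWord_infinite (fun h => hn ((key n).1 h)) j hj
  · intro z j hj
    exact gen_infinite z j hj
  · exact (RH_of (rules := mrules M S) (d₁ := 0) (d₂ := 0) (d₃ := S.card)).c12
  · intro i j h
    have h3 := Xv_eq_one (rules := mrules M S) (d₁ := 0) (d₂ := 0) (d₃ := S.card)
      (a := i) (b := j) (c := 0) (by
        unfold Xv
        rw [zpow_zero, mul_one]
        exact h)
    exact ⟨h3.1, h3.2.1⟩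

/-- **The Novikov-Boone theorem.** -/
theorem word_problem_undecidable : ∃ (m : ℕ) (R : List (List (Gen m × Bool))),
    ¬ ComputablePred (fun w : List (Gen m × Bool) =>
      PresentedGroup.mk (relSet R) (FreeGroup.mk w) = 1) := by
  obtain ⟨m, R, w, hw, h1, h2, -⟩ := novikov_boone
  refine ⟨m, R, ?_⟩
  rintro ⟨inst, hc⟩
  refine hf_not_computable (ComputablePred.of_eq
    (p := fun n => PresentedGroup.mk (relSet R) (FreeGroup.mk (w n)) = 1)
    ⟨fun n => inst (w n), hc.comp hw.to_comp⟩ ?_)
  intro n
  constructor
  · intro h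
    by_contra hn
    refine h2 n hn 1 one_ne_zero ?_
    rw [zpow_one]
    exact h
  · exact h1 n

/-- the list of all generators -/
def allGens (m : ℕ) : List (Gen m) :=
  (List.finRange 5).map Sum.inl ++ (List.finRange m).map Sum.inr

theorem mem_allGens {m : ℕ} (z : Gen m) : z ∈ allGens m := by
  rcases z with z | z
  · exact List.mem_append_left _ (List.mem_map.2 ⟨z, List.mem_finRange z, rfl⟩)
  · exact List.mem_append_right _ (List.mem_map.2 ⟨z, List.mem_finRange z, rfl⟩)

/-- **The family of groups.**  A primitive recursive sequence of finite presentations (all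
with the same generators; only one word in the relators varies): if the `n`-th program halts,
the old generators are trivial and the group is free on the new generators; if it does not
halt, the group contains two commuting elements which generate a free abelian group of rank
two. -/
theorem family : ∃ (m : ℕ) (R : List (List (Gen m × Bool)))
    (w : ℕ → List (Gen m × Bool)), Primrec w ∧
    (∀ n, (hf n).Dom → PresentedGroup.mk (relSet R) (FreeGroup.mk (w n)) = 1) ∧
    (∀ n, (hf n).Dom → ∃ e : Pr (famRels (allGens m) R (w n)) ≃* FreeGroup (Gen m),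
      (∀ z, e (PresentedGroup.of (Sum.inr z)) = FreeGroup.of z) ∧
      ∀ z, e (PresentedGroup.of (Sum.inl z)) = 1) ∧
    (∀ n, ¬ (hf n).Dom →
      Commute (PresentedGroup.of (Sum.inl gx1) : Pr (famRels (allGens m) R (w n)))
        (PresentedGroup.of (Sum.inl gx2)) ∧
      ∀ i j : ℤ, (PresentedGroup.of (Sum.inl gx1) : Pr (famRels (allGens m) R (w n))) ^ i *
        (PresentedGroup.of (Sum.inl gx2)) ^ j = 1 → i = 0 ∧ j = 0) := by
  obtain ⟨m, R, w, hw, h1, h2, h3, h4, h5⟩ := novikov_boone
  refine ⟨m, R, w, hw, h1, ?_, ?_⟩
  · intro n hn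
    exact fam_free (allGens m) mem_allGens R (w n) (h1 n hn)
  · intro n hn
    have hinj := fam_injective (allGens m) mem_allGens R (w n) (h2 n hn) h3
    constructor
    · have h6 := h4.map (famEmb (allGens m) mem_allGens R (w n))
      rwa [famEmb_of, famEmb_of] at h6
    · intro i j h6
      apply h5
      apply hinj
      rw [map_mul, map_zpow, map_zpow, famEmb_of, famEmb_of, map_one]
      exact h6

end NB
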