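import Mathlib
import Pool.Agent.NB.Main

/-!
# Novikov-Boone, part 11: the non-halting words are not recursively enumerable
-/

namespace NB

theorem hf_not_re : ¬ REPred (fun n => ¬ (hf n).Dom) := by
  intro h
  refine ComputablePred.halting_problem_not_re 0 ?_
  have h1 : REPred (fun c : Nat.Partrec.Code => ¬ (hf (Encodable.encode c)).Dom) :=
    Partrec.comp h Computable.encode
  refine h1.of_eq ?_
  intro c
  simp [hf]

/-- A finite presentation and a primitive recursive sequence of words such that the set of
indices with nontrivial word is not recursively enumerable. -/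
theorem words_not_re : ∃ (m : ℕ) (R : List (List (Gen m × Bool)))
    (w : ℕ → List (Gen m × Bool)), Primrec w ∧
    ¬ REPred (fun n => PresentedGroup.mk (relSet R) (FreeGroup.mk (w n)) ≠ 1) := by
  obtain ⟨m, R, w, hw, h1, h2, -⟩ := novikov_boone
  refine ⟨m, R, w, hw, fun h => hf_not_re (h.of_eq ?_)⟩
  intro n
  constructor
  · intro h3 h4
    exact h3 (h1 n h4)
  · intro h3 h4
    refine h2 n h3 1 one_ne_zero ?_
    rw [zpow_one]
    exact h4

end NB
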